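import Mathlib.MeasureTheory.Function.L2Space
import Pool.Agent.BoltzD.C3.Cancel
import Mathlib.Order.CompletePartialOrder

-- ======== part 0: formerly Pool.Agent.BoltzD.C3.Bounds
section MrgPart0

/-! Elementary bounds: Gaussian moments, the error terms of the cancellation lemma,
square integrability for the truncated collision measure. -/

open MeasureTheory Real Set
open scoped ENNReal RealInnerProductSpace

noncomputable section

namespace Pool.Agent.BoltzD.C3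

open Pool.Agent.BoltzD.Coll

variable [Dim]

lemma gauss_poly (n : ℕ) {c : ℝ} (hc : 0 < c) {x : ℝ} (hx : 0 ≤ x) :
    (1 + x) ^ n * exp (-(c * x ^ 2)) ≤ exp ((n : ℝ) ^ 2 / (4 * c)) := by
  have h1 : (1 + x) ^ n ≤ exp (n * x) := by
    rw [exp_nat_mul]
    exact pow_le_pow_left₀ (by linarith) (by linarith [add_one_le_exp x]) n
  calc (1 + x) ^ n * exp (-(c * x ^ 2)) ≤ exp (n * x) * exp (-(c * x ^ 2)) := by gcongr
    _ = exp (n * x - c * x ^ 2) := by rw [← exp_add]; ring_nf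
    _ ≤ _ := by
      refine exp_le_exp.2 ?_
      rw [le_div_iff₀ (by positivity)]
      nlinarith [sq_nonneg ((n : ℝ) - 2 * c * x)]

lemma sM_poly (n : ℕ) (v : E) : (1 + ‖v‖) ^ n * sM v ≤ exp ((n : ℝ) ^ 2) := by
  have := gauss_poly n (c := 1 / 4) (by norm_num) (norm_nonneg v)
  rw [show (n : ℝ) ^ 2 / (4 * (1 / 4)) = (n : ℝ) ^ 2 by ring,
    show -(1 / 4 * ‖v‖ ^ 2) = -‖v‖ ^ 2 / 4 by ring] at this
  exact this

/-- an integrable weight -/
def jap (z : E) : ℝ := ((1 + ‖z‖) ^ (dd + 1))⁻¹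

lemma jap_pos (z : E) : 0 < jap z := by unfold jap; positivity

@[fun_prop] lemma measurable_jap : Measurable jap := by unfold jap; fun_prop

lemma integrable_jap : Integrable jap := by
  have := integrable_one_add_norm (E := E) (μ := volume) (r := ((dd + 1 : ℕ) : ℝ)) (by simp)
  refine this.congr (ae_of_all _ fun z => ?_)
  simp only [jap]
  rw [rpow_neg (by positivity), rpow_natCast]

lemma lint_jap : ∫⁻ z, ENNReal.ofReal (jap z) ≠ ⊤ := integrable_jap.lintegral_lt_top.ne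

lemma le_jap {n : ℕ} {f C : ℝ} {z : E} (h : (1 + ‖z‖) ^ (n + (dd + 1)) * f ≤ C) :
    (1 + ‖z‖) ^ n * f ≤ C * jap z := by
  rw [jap, ← div_eq_mul_inv, le_div_iff₀ (by positivity)]
  calc (1 + ‖z‖) ^ n * f * (1 + ‖z‖) ^ (dd + 1) = (1 + ‖z‖) ^ (n + (dd + 1)) * f := by
        rw [pow_add _ n]; ring
    _ ≤ C := h

/-- the Newton kernel near the origin -/
def newt (u : E) : ℝ≥0∞ := (Metric.ball (0 : E) 1).indicator (fun u => ENNReal.ofReal ‖u‖⁻¹) u

lemma measurable_newt : Measurable newt :=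
  Measurable.indicator (by fun_prop) measurableSet_ball

lemma lint_newt : ∫⁻ u, newt u ≠ ⊤ := by
  rw [lintegral_polar _ measurable_newt]
  have h : ∀ o : S2, ∫⁻ r in Ioi (0 : ℝ), ENNReal.ofReal (r ^ (dd - 1)) * newt (r • (o : E)) ≤ 1 := by
    intro o
    calc ∫⁻ r in Ioi (0 : ℝ), ENNReal.ofReal (r ^ (dd - 1)) * newt (r • (o : E))
        ≤ ∫⁻ r in Ioi (0 : ℝ), (Ioo (0 : ℝ) 1).indicator 1 r := by
          refine setLIntegral_mono' measurableSet_Ioi fun r hr => ?_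
          have hr' : 0 < r := hr
          by_cases h1 : r < 1
          · have : r • (o : E) ∈ Metric.ball (0 : E) 1 := by
              simp [norm_smul, abs_of_pos hr', h1]
            rw [newt, indicator_of_mem this, indicator_of_mem (show r ∈ Ioo (0 : ℝ) 1 from ⟨hr', h1⟩),
              ← ENNReal.ofReal_mul (by positivity), Pi.one_apply, ENNReal.ofReal_le_one]
            rw [norm_smul, norm_coe, mul_one, Real.norm_eq_abs, abs_of_pos hr',
              mul_inv_le_iff₀ hr', one_mul]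
            exact pow_le_of_le_one hr'.le h1.le (by have := two_le_dd; omega)
          · have : r • (o : E) ∉ Metric.ball (0 : E) 1 := by
              simp [norm_smul, abs_of_pos hr', not_lt.1 h1]
            rw [newt, indicator_of_notMem this, mul_zero]
            exact zero_le
      _ ≤ ∫⁻ r, (Ioo (0 : ℝ) 1).indicator 1 r := setLIntegral_le_lintegral _ _
      _ = 1 := by rw [lintegral_indicator measurableSet_Ioo]; simp
  refine ne_top_of_le_ne_top ?_ (lintegral_mono h)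
  rw [lintegral_const, one_mul]
  exact measure_ne_top _ _

lemma one_add_sub_le (v z : E) : 1 + ‖v - z‖ ≤ (1 + ‖v‖) * (1 + ‖z‖) := by
  nlinarith [norm_sub_le v z, norm_nonneg v, norm_nonneg z, mul_nonneg (norm_nonneg v) (norm_nonneg z)]

lemma conv_bound : ∃ C : ℝ≥0∞, C ≠ ⊤ ∧ ∀ v : E,
    ∫⁻ u, cbar ‖u‖ * ENNReal.ofReal (sM (v - u)) ≤ C * ENNReal.ofReal ((1 + ‖v‖) ^ 28) := by
  have hcb := cb_pos
  set A : ℝ := cb * exp ((28 + (dd + 1) : ℕ) ^ 2) with hA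
  have hA0 : 0 < A := by positivity
  refine ⟨ENNReal.ofReal A * ((∫⁻ z, ENNReal.ofReal (jap z)) + ∫⁻ u, newt u),
    ENNReal.mul_ne_top ENNReal.ofReal_ne_top (ENNReal.add_ne_top.2 ⟨lint_jap, lint_newt⟩),
    fun v => ?_⟩
  have h1 : ∀ u : E, cbar ‖u‖ * ENNReal.ofReal (sM (v - u))
      ≤ ENNReal.ofReal (A * (1 + ‖v‖) ^ 28) * (ENNReal.ofReal (jap (v - u)) + newt u) := by
    intro u
    have hs := sM_pos (v - u)
    have h2 : (1 + ‖u‖) ^ 28 * sM (v - u) ≤ (1 + ‖v‖) ^ 28 * (exp ((28 + (dd + 1) : ℕ) ^ 2) * jap (v - u)) := by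
      have h3 : 1 + ‖u‖ ≤ (1 + ‖v‖) * (1 + ‖v - u‖) := by
        simpa using one_add_sub_le v (v - u)
      calc (1 + ‖u‖) ^ 28 * sM (v - u) ≤ ((1 + ‖v‖) * (1 + ‖v - u‖)) ^ 28 * sM (v - u) := by gcongr
        _ = (1 + ‖v‖) ^ 28 * ((1 + ‖v - u‖) ^ 28 * sM (v - u)) := by rw [mul_pow, mul_assoc]
        _ ≤ _ := mul_le_mul_of_nonneg_left (le_jap (n := 28) (sM_poly (28 + (dd + 1)) _)) (by positivity)
    have hj : jap (v - u) ≤ 1 := by
      unfold jap
      exact inv_le_one_of_one_le₀ (one_le_pow₀ (by linarith [norm_nonneg (v - u)]))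
    have hj0 := jap_pos (v - u)
    have h4 : cb * (1 + ‖u‖) ^ 28 / ‖u‖ * sM (v - u)
        ≤ A * (1 + ‖v‖) ^ 28 * (jap (v - u) * ‖u‖⁻¹) := by
      calc cb * (1 + ‖u‖) ^ 28 / ‖u‖ * sM (v - u)
          = cb * ‖u‖⁻¹ * ((1 + ‖u‖) ^ 28 * sM (v - u)) := by
            generalize (1 + ‖u‖) ^ 28 = Z; ring
        _ ≤ cb * ‖u‖⁻¹ * ((1 + ‖v‖) ^ 28 * (exp ((28 + (dd + 1) : ℕ) ^ 2) * jap (v - u))) := by gcongr
        _ = _ := by rw [hA]; generalize (1 + ‖v‖) ^ 28 = Z; ring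
    rw [cbar, ← ENNReal.ofReal_mul (by positivity)]
    refine (ENNReal.ofReal_le_ofReal h4).trans ?_
    rw [ENNReal.ofReal_mul (by positivity)]
    refine mul_le_mul_right ?_ _
    by_cases hu : u ∈ Metric.ball (0 : E) 1
    · rw [newt, indicator_of_mem hu]
      exact le_add_left (ENNReal.ofReal_le_ofReal (mul_le_of_le_one_left (by positivity) hj))
    · have : 1 ≤ ‖u‖ := by simpa using hu
      exact le_add_right (ENNReal.ofReal_le_ofReal
        (mul_le_of_le_one_right hj0.le (inv_le_one_of_one_le₀ this)))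
  have hm : Measurable fun u : E => ENNReal.ofReal (jap (v - u)) := by fun_prop
  calc _ ≤ ∫⁻ u, ENNReal.ofReal (A * (1 + ‖v‖) ^ 28) * (ENNReal.ofReal (jap (v - u)) + newt u) :=
        lintegral_mono h1
    _ = _ := by
      rw [lintegral_const_mul' _ _ ENNReal.ofReal_ne_top, lintegral_add_left hm,
        lintegral_sub_left_eq_self (fun z => ENNReal.ofReal (jap z)) v, ENNReal.ofReal_mul hA0.le]
      ring

/-- weighted square norm of order 28 -/
def N8 (g : E → ℝ) : ℝ≥0∞ := ∫⁻ v, ENNReal.ofReal ((1 + ‖v‖) ^ 28 * g v ^ 2)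

lemma err_max : ∃ C : ℝ≥0∞, C ≠ ⊤ ∧ ∀ g : E → ℝ, Measurable g →
    err (fun q => g q.1 ^ 2 * sM q.2 ^ 2) ≤ C * N8 g := by
  obtain ⟨C, hC, h⟩ := conv_bound
  refine ⟨C, hC, fun g hg => ?_⟩
  rw [err, N8, ← lintegral_const_mul _ (by fun_prop)]
  refine lintegral_mono fun v => ?_
  calc ∫⁻ u, cbar ‖u‖ * ENNReal.ofReal |g v ^ 2 * sM (v - u) ^ 2|
      ≤ ∫⁻ u, cbar ‖u‖ * ENNReal.ofReal (sM (v - u)) * ENNReal.ofReal (g v ^ 2) := by
        refine lintegral_mono fun u => ?_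
        simp only
        rw [mul_assoc, ← ENNReal.ofReal_mul (sM_pos _).le, abs_of_nonneg (by positivity)]
        refine mul_le_mul_right (ENNReal.ofReal_le_ofReal ?_) _
        have := sM_pos (v - u)
        have := sM_le_one (v - u)
        rw [mul_comm]
        gcongr
        nlinarith
    _ ≤ C * ENNReal.ofReal ((1 + ‖v‖) ^ 28) * ENNReal.ofReal (g v ^ 2) := by
        rw [lintegral_mul_const _ (by fun_prop)]
        exact mul_le_mul_left (h v) _
    _ = _ := by rw [mul_assoc, ← ENNReal.ofReal_mul (by positivity)]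

lemma err_cross : ∃ C : ℝ≥0∞, C ≠ ⊤ ∧ ∀ g : E → ℝ, Measurable g →
    err (fun q => g q.1 * sM q.1 * (g q.2 * sM q.2)) ≤ C * L2L g := by
  obtain ⟨C, hC, h⟩ := conv_bound
  set A : ℝ≥0∞ := C * ENNReal.ofReal (exp ((28 : ℕ) ^ 2)) with hA
  refine ⟨A + A, ENNReal.add_ne_top.2 ⟨ENNReal.mul_ne_top hC ENNReal.ofReal_ne_top,
    ENNReal.mul_ne_top hC ENNReal.ofReal_ne_top⟩, fun g hg => ?_⟩
  set F : E × E → ℝ≥0∞ := fun q =>
    cbar ‖q.1 - q.2‖ * ENNReal.ofReal (sM q.2) * ENNReal.ofReal (sM q.1 * g q.1 ^ 2) with hF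
  have hFm : Measurable F := by fun_prop
  have hb : ∫⁻ v, ∫⁻ z, F (v, z) ≤ A * L2L g := by
    rw [L2L, ← lintegral_const_mul _ (by fun_prop)]
    refine lintegral_mono fun v => ?_
    simp only [hF]
    rw [lintegral_mul_const _ (by fun_prop), ← lintegral_sub_left_eq_self _ v]
    simp only [sub_sub_cancel]
    calc _ ≤ C * ENNReal.ofReal ((1 + ‖v‖) ^ 28) * ENNReal.ofReal (sM v * g v ^ 2) :=
          mul_le_mul_left (h v) _
      _ ≤ _ := by
        rw [hA, mul_assoc, mul_assoc, ← ENNReal.ofReal_mul (by positivity),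
          ← ENNReal.ofReal_mul (by positivity), ← mul_assoc]
        exact mul_le_mul_right (ENNReal.ofReal_le_ofReal
          (mul_le_mul_of_nonneg_right (sM_poly 28 v) (sq_nonneg _))) _
  have hb2 : ∫⁻ v, ∫⁻ z, F (z, v) ≤ A * L2L g := by
    rw [lintegral_lintegral_swap (f := fun v z => F (z, v))
      (hFm.comp measurable_swap).aemeasurable]
    exact hb
  have h1 : err (fun q => g q.1 * sM q.1 * (g q.2 * sM q.2))
      ≤ ∫⁻ v, ∫⁻ z, (F (v, z) + F (z, v)) := by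
    refine lintegral_mono fun v => ?_
    simp only
    rw [← lintegral_sub_left_eq_self (fun z => F (v, z) + F (z, v)) v]
    refine lintegral_mono fun u => ?_
    simp only [hF, sub_sub_cancel, sub_sub_cancel_left, norm_neg, mul_assoc]
    rw [← mul_add, ← ENNReal.ofReal_mul (sM_pos _).le, ← ENNReal.ofReal_mul (sM_pos _).le,
      ← ENNReal.ofReal_add (by have := sM_pos v; have := sM_pos (v - u); positivity)
        (by have := sM_pos v; have := sM_pos (v - u); positivity)]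
    refine mul_le_mul_right (ENNReal.ofReal_le_ofReal ?_) _
    have h2 := mul_pos (sM_pos v) (sM_pos (v - u))
    rw [abs_le]
    constructor <;> nlinarith [mul_nonneg h2.le (sq_nonneg (g v - g (v - u))),
      mul_nonneg h2.le (sq_nonneg (g v + g (v - u))), mul_nonneg h2.le (sq_nonneg (g v)),
      mul_nonneg h2.le (sq_nonneg (g (v - u)))]
  refine h1.trans ?_
  have hm1 : ∀ v : E, Measurable fun z => F (v, z) := fun v => hFm.comp (by fun_prop)
  simp only [lintegral_add_left (hm1 _)]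
  rw [lintegral_add_left hFm.lintegral_prod_right', add_mul]
  exact add_le_add hb hb2

/-- measurable with decay of order `dd + 30` -/
def Dec (f : E → ℝ) : Prop := Measurable f ∧ ∃ K : ℝ, ∀ x, (1 + ‖x‖) ^ (dd + 30) * |f x| ≤ K

lemma dec_sM : Dec sM :=
  ⟨measurable_sM, exp ((dd + 30 : ℕ) ^ 2), fun x => by
    rw [abs_of_pos (sM_pos x)]; exact sM_poly (dd + 30) x⟩

lemma Dec.near {f : E → ℝ} (hf : Dec f) : ∃ K : ℝ, 0 ≤ K ∧ ∀ x v : E, ‖x - v‖ ≤ 1 →
    (1 + ‖v‖) ^ (30 + (dd + 1)) * f x ^ 2 ≤ K := by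
  obtain ⟨K, hK⟩ := hf.2
  refine ⟨2 ^ (30 + (dd + 1)) * K ^ 2, by positivity, fun x v h => ?_⟩
  have h1 : 1 + ‖v‖ ≤ 2 * (1 + ‖x‖) := by
    have := norm_sub_norm_le v x
    rw [norm_sub_rev] at this
    linarith [norm_nonneg x]
  have h2 : (1 + ‖x‖) ^ (30 + (dd + 1)) ≤ ((1 + ‖x‖) ^ (dd + 30)) ^ 2 := by
    rw [← pow_mul]
    exact pow_le_pow_right₀ (by linarith [norm_nonneg x]) (by omega)
  calc (1 + ‖v‖) ^ (30 + (dd + 1)) * f x ^ 2 ≤ (2 * (1 + ‖x‖)) ^ (30 + (dd + 1)) * f x ^ 2 := by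
        gcongr
    _ ≤ 2 ^ (30 + (dd + 1)) * ((1 + ‖x‖) ^ (dd + 30)) ^ 2 * f x ^ 2 := by rw [mul_pow]; gcongr
    _ = 2 ^ (30 + (dd + 1)) * ((1 + ‖x‖) ^ (dd + 30) * |f x|) ^ 2 := by
        rw [mul_pow _ |f x|, sq_abs, mul_assoc]
    _ ≤ 2 ^ (30 + (dd + 1)) * K ^ 2 := by gcongr; exact hK x

lemma integrable_jj : Integrable (fun p : E × E × S2 => jap p.1 * jap p.2.1) mu3 := by
  have h1 : Integrable (fun q : E × S2 => jap q.1) mu2 := by
    have := integrable_jap.mul_prod (integrable_const (μ := sph) (1 : ℝ))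
    simpa [mu2] using this
  exact integrable_jap.mul_prod h1

lemma norm_rpow_le (u : E) {a : ℝ} {n : ℕ} (ha : 0 ≤ a) (han : a ≤ n) :
    ‖u‖ ^ a ≤ (1 + ‖u‖) ^ n := by
  calc ‖u‖ ^ a ≤ (1 + ‖u‖) ^ a := by gcongr; linarith
    _ ≤ (1 + ‖u‖) ^ (n : ℝ) := rpow_le_rpow_of_exponent_le (by linarith [norm_nonneg u]) han
    _ = _ := rpow_natCast _ _

lemma phi_le_eps {ε : ℝ} (hε : 0 < ε) (t : ℝ) : phi ε t ≤ ε ^ (-(3 / 2) : ℝ) := by
  by_cases h : t ∈ win ε
  · rw [phi, indicator_of_mem h]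
    exact rpow_le_rpow_of_nonpos hε h.1 (by norm_num)
  · rw [phi, indicator_of_notMem h]; positivity

lemma memLp2 {ε : ℝ} (hε : 0 < ε) {f h : E → ℝ} (hf : Dec f) (hh : Dec h)
    {x y : E × E × S2 → E} (hx : Measurable x) (hy : Measurable y)
    (hx1 : ∀ p, ‖x p - p.1‖ ≤ |rho p|) (hy1 : ∀ p, ‖y p - p.2.1‖ ≤ |rho p|) :
    MemLp (fun p => f (x p) * h (y p)) 2 (mm ε) := by
  have hm : Measurable fun p => f (x p) * h (y p) := (hf.1.comp hx).mul (hh.1.comp hy)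
  obtain ⟨K1, hK1, h1⟩ := hf.near
  obtain ⟨K2, hK2, h2⟩ := hh.near
  rw [memLp_two_iff_integrable_sq hm.aestronglyMeasurable, mm,
    integrable_withDensity_iff (by fun_prop) (ae_of_all _ fun p => ENNReal.ofReal_lt_top)]
  refine (integrable_jj.const_mul (2 * ε ^ (-(3 / 2) : ℝ) * K1 * K2)).mono'
    (Measurable.aestronglyMeasurable (by fun_prop)) (ae_of_all _ fun p => ?_)
  have hj1 := jap_pos p.1
  have hj2 := jap_pos p.2.1
  rw [ENNReal.toReal_ofReal (kc_nonneg ε p), Real.norm_eq_abs,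
    abs_of_nonneg (mul_nonneg (sq_nonneg _) (kc_nonneg ε p))]
  by_cases hr : 1 < |rho p|
  · rw [kc, phi_eq_zero hr, mul_zero, mul_zero]; positivity
  · have a1 := h1 _ _ ((hx1 p).trans (not_lt.1 hr))
    have a2 := h2 _ _ ((hy1 p).trans (not_lt.1 hr))
    have b1 : (1 + ‖p.1‖) ^ 30 * f (x p) ^ 2 ≤ K1 * jap p.1 := le_jap a1
    have b2 : (1 + ‖p.2.1‖) ^ 30 * h (y p) ^ 2 ≤ K2 * jap p.2.1 := le_jap a2
    have c1 : kc ε p ≤ 2 * ((1 + ‖p.1‖) * (1 + ‖p.2.1‖)) ^ 30 * ε ^ (-(3 / 2) : ℝ) := by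
      unfold kc
      have := (norm_rpow_le (p.1 - p.2.1) (a := 59 / 2) (n := 30) (by norm_num) (by norm_num)).trans
        (pow_le_pow_left₀ (by positivity) (one_add_sub_le p.1 p.2.1) 30)
      have := phi_le_eps hε (rho p)
      have := phi_nonneg ε (rho p)
      gcongr
    calc (f (x p) * h (y p)) ^ 2 * kc ε p
        ≤ (f (x p) * h (y p)) ^ 2 * (2 * ((1 + ‖p.1‖) * (1 + ‖p.2.1‖)) ^ 30 * ε ^ (-(3 / 2) : ℝ)) := by
          gcongr
      _ = 2 * ε ^ (-(3 / 2) : ℝ) * ((1 + ‖p.1‖) ^ 30 * f (x p) ^ 2)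
          * ((1 + ‖p.2.1‖) ^ 30 * h (y p) ^ 2) := by
          rw [mul_pow (1 + ‖p.1‖)]
          generalize (1 + ‖p.1‖) ^ 30 = Z1
          generalize (1 + ‖p.2.1‖) ^ 30 = Z2
          ring
      _ ≤ 2 * ε ^ (-(3 / 2) : ℝ) * (K1 * jap p.1) * (K2 * jap p.2.1) := by gcongr
      _ = _ := by ring

end Pool.Agent.BoltzD.C3

end
end MrgPart0

-- ======== part 1: formerly Pool.Agent.BoltzD.C3.Expand
section MrgPart1

-- ======== part 0: formerly Pool.Agent.BoltzD.C3.Terms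
section MrgPart0

/-! The first order term of the cross product and the lower bound of the multiplier. -/

open MeasureTheory Real Set
open scoped ENNReal RealInnerProductSpace

noncomputable section

namespace Pool.Agent.BoltzD.C3

open Pool.Agent.BoltzD.Coll

variable [Dim]

lemma exp_diff {a b m : ℝ} (ha : m ≤ a) (hb : m ≤ b) :
    |exp (-a) - exp (-b)| ≤ |a - b| * exp (-m) := by
  have key : ∀ a b : ℝ, m ≤ a → a ≤ b → |exp (-a) - exp (-b)| ≤ |a - b| * exp (-m) := by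
    intro a b ha hab
    have h1 : exp (-b) = exp (-a) * exp (-(b - a)) := by rw [← exp_add]; ring_nf
    have h2 := add_one_le_exp (-(b - a))
    have h3 : exp (-b) ≤ exp (-a) := exp_le_exp.2 (by linarith)
    have h4 : exp (-a) ≤ exp (-m) := exp_le_exp.2 (by linarith)
    have h5 := exp_pos (-a)
    rw [abs_of_nonneg (by linarith), abs_of_nonpos (by linarith)]
    calc exp (-a) - exp (-b) ≤ (b - a) * exp (-a) := by rw [h1]; nlinarith
      _ ≤ -(a - b) * exp (-m) := by rw [neg_sub]; gcongr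
  rcases le_total a b with h | h
  · exact key a b ha h
  · rw [abs_sub_comm, abs_sub_comm a]; exact key b a hb h

/-- first order difference in the cross term -/
def HH (p : E × E × S2) : ℝ :=
  |sM p.2.1 * sM (pv p.1 p.2.1 p.2.2) - sM p.1 * sM (pw p.1 p.2.1 p.2.2)|

@[fun_prop] lemma measurable_HH : Measurable HH := by unfold HH; fun_prop

lemma HH_nonneg (p : E × E × S2) : 0 ≤ HH p := abs_nonneg _

lemma HH_symm (p : E × E × S2) : HH (swp (coll p)) = HH p := by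
  simp only [HH, swp, coll]
  rw [pv_swap (pv p.1 p.2.1 p.2.2), pw_swap (pv p.1 p.2.1 p.2.2), pv_pv, pw_pw, mul_comm,
    mul_comm (sM (pw _ _ _))]

lemma half_sq_le {x v : E} (h : ‖x - v‖ ≤ 1) : ‖v‖ ^ 2 / 2 - 1 ≤ ‖x‖ ^ 2 := by
  have h1 := norm_sub_norm_le v x
  rw [norm_sub_rev] at h1
  have h2 : ‖v‖ ≤ ‖x‖ + 1 := by linarith
  have h3 : ‖v‖ ^ 2 ≤ (‖x‖ + 1) ^ 2 := by gcongr
  nlinarith [sq_nonneg (‖x‖ - 1)]

lemma HH_le (p : E × E × S2) (h : |rho p| ≤ 1) :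
    HH p ≤ |rho p| * (exp (1 / 4) * ((1 + ‖p.1‖) * exp (-(1 / 8 * ‖p.1‖ ^ 2)))
      * ((1 + ‖p.2.1‖) * exp (-(1 / 8 * ‖p.2.1‖ ^ 2)))) := by
  obtain ⟨v, w, o⟩ := p
  have h1 := half_sq_le ((norm_pv_sub v w o).trans_le h)
  have h2 := half_sq_le ((norm_pw_sub v w o).trans_le h)
  have e1 : sM w * sM (pv v w o) = exp (-((‖w‖ ^ 2 + ‖pv v w o‖ ^ 2) / 4)) := by
    rw [sM, sM, ← exp_add]; ring_nf
  have e2 : sM v * sM (pw v w o) = exp (-((‖v‖ ^ 2 + ‖pw v w o‖ ^ 2) / 4)) := by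
    rw [sM, sM, ← exp_add]; ring_nf
  have h3 := exp_diff (a := (‖w‖ ^ 2 + ‖pv v w o‖ ^ 2) / 4) (b := (‖v‖ ^ 2 + ‖pw v w o‖ ^ 2) / 4)
    (m := (‖v‖ ^ 2 + ‖w‖ ^ 2) / 8 - 1 / 4) (by nlinarith [sq_nonneg ‖w‖])
    (by nlinarith [sq_nonneg ‖v‖])
  have h4 : (‖w‖ ^ 2 + ‖pv v w o‖ ^ 2) / 4 - (‖v‖ ^ 2 + ‖pw v w o‖ ^ 2) / 4
      = -(rho (v, w, o) * (⟪v, (o : E)⟫ + ⟪w, (o : E)⟫)) / 2 := by
    simp only [pv, pw, rho]
    rw [norm_sub_sq_real, norm_add_sq_real, inner_smul_right, inner_smul_right]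
    ring
  have h5 : |⟪v, (o : E)⟫ + ⟪w, (o : E)⟫| ≤ (1 + ‖v‖) * (1 + ‖w‖) := by
    have := abs_add_le ⟪v, (o : E)⟫ ⟪w, (o : E)⟫
    nlinarith [abs_inner_le v o, abs_inner_le w o, mul_nonneg (norm_nonneg v) (norm_nonneg w)]
  have e3 : exp (-((‖v‖ ^ 2 + ‖w‖ ^ 2) / 8 - 1 / 4))
      = exp (1 / 4) * exp (-(1 / 8 * ‖v‖ ^ 2)) * exp (-(1 / 8 * ‖w‖ ^ 2)) := by
    rw [← exp_add, ← exp_add]; ring_nf
  rw [h4, e3, abs_div, abs_neg, abs_mul, abs_two] at h3
  simp only [HH, e1, e2]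
  refine h3.trans ?_
  have h6 : |rho (v, w, o)| * |⟪v, (o : E)⟫ + ⟪w, (o : E)⟫| / 2
      ≤ |rho (v, w, o)| * ((1 + ‖v‖) * (1 + ‖w‖)) := by
    have := mul_le_mul_of_nonneg_left h5 (abs_nonneg (rho (v, w, o)))
    have := mul_nonneg (abs_nonneg (rho (v, w, o))) (abs_nonneg (⟪v, (o : E)⟫ + ⟪w, (o : E)⟫))
    linarith
  calc _ ≤ |rho (v, w, o)| * ((1 + ‖v‖) * (1 + ‖w‖))
        * (exp (1 / 4) * exp (-(1 / 8 * ‖v‖ ^ 2)) * exp (-(1 / 8 * ‖w‖ ^ 2))) := by gcongr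
    _ = _ := by ring

/-- the integrable singularity left after one difference -/
def psi (t : ℝ) : ℝ≥0∞ :=
  (Metric.ball (0 : ℝ) 2).indicator (fun t => ENNReal.ofReal (‖t‖ ^ (-(1 / 2) : ℝ))) t

lemma measurable_psi : Measurable psi :=
  (ENNReal.measurable_ofReal.comp (Measurable.pow_const measurable_norm _)).indicator
    measurableSet_ball

lemma lint_psi : ∫⁻ t, psi t ≠ ⊤ := by
  have h : IntegrableOn (fun x : ℝ => ‖x‖ ^ (-(1 / 2) : ℝ)) (Metric.ball (0 : ℝ) 2) volume := by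
    rw [integrableOn_fun_norm_addHaar volume (f := fun y : ℝ => y ^ (-(1 / 2) : ℝ))]
    simp only [Module.finrank_self, Nat.sub_self, pow_zero, one_smul]
    exact (intervalIntegral.integrableOn_Ioo_rpow_iff (by norm_num)).2 (by norm_num)
  unfold psi
  rw [lintegral_indicator measurableSet_ball]
  exact h.lintegral_lt_top.ne

lemma phi_mul_abs_le (ε t : ℝ) : ENNReal.ofReal (phi ε t * |t|) ≤ psi t := by
  by_cases ht : 1 < |t|
  · rw [phi_eq_zero ht]; simp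
  · have h1 : t ∈ Metric.ball (0 : ℝ) 2 := by
      rw [mem_ball_zero_iff, Real.norm_eq_abs]; linarith [not_lt.1 ht]
    rw [psi, indicator_of_mem h1, Real.norm_eq_abs]
    refine ENNReal.ofReal_le_ofReal ((mul_le_mul_of_nonneg_right (phi_le ε t) (abs_nonneg t)).trans
      (le_of_eq ?_))
    rw [← rpow_add_one' (abs_nonneg t) (by norm_num)]; norm_num

lemma psi_le {r t : ℝ} (hr : 0 < r) (ht : r / 2 < |t|) :
    psi t ≤ ENNReal.ofReal (2 * r ^ (-(1 / 2) : ℝ)) := by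
  refine (indicator_le_self _ _ t).trans (ENNReal.ofReal_le_ofReal ?_)
  have h1 : ‖t‖ ^ (-(1 / 2) : ℝ) ≤ (r / 4) ^ (-(1 / 2) : ℝ) :=
    rpow_le_rpow_of_nonpos (by linarith) (by rw [Real.norm_eq_abs]; linarith) (by norm_num)
  have h2 : (4 : ℝ) ^ (-(1 / 2) : ℝ) = 1 / 2 := by
    rw [show (4 : ℝ) = 2 ^ (2 : ℝ) by norm_num, ← rpow_mul (by norm_num)]; norm_num
  rw [div_rpow hr.le (by norm_num), h2] at h1
  linarith

lemma ang_first : ∃ C : ℝ≥0∞, C ≠ ⊤ ∧ ∀ u : E,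
    ∫⁻ o : S2, ENNReal.ofReal (‖u‖ ^ (59 / 2 : ℝ)) * psi ⟪u, (o : E)⟫ ∂sph
      ≤ ENNReal.ofReal ((1 + ‖u‖) ^ 29) * C := by
  have := cS_pos
  have := cT_pos
  refine ⟨ENNReal.ofReal (2 * cS) * (∫⁻ t, psi t) + ENNReal.ofReal (2 * cT),
    ENNReal.add_ne_top.2 ⟨ENNReal.mul_ne_top ENNReal.ofReal_ne_top lint_psi,
      ENNReal.ofReal_ne_top⟩, fun u => ?_⟩
  by_cases hu : u = 0
  · subst hu; simp
  · have hn : 0 < ‖u‖ := norm_pos_iff.2 hu
    rw [lintegral_const_mul' _ _ ENNReal.ofReal_ne_top]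
    refine (mul_le_mul_right (arch_le u hu psi measurable_psi fun t ht => psi_le hn ht) _).trans ?_
    rw [mul_add, mul_add, ← mul_assoc, ← mul_assoc (ENNReal.ofReal ((1 + ‖u‖) ^ 29)),
      ← ENNReal.ofReal_mul (by positivity), ← ENNReal.ofReal_mul (by positivity),
      ← ENNReal.ofReal_mul (by positivity), ← ENNReal.ofReal_mul (by positivity),
      ← ENNReal.ofReal_mul (by positivity)]
    refine add_le_add (mul_le_mul_left (ENNReal.ofReal_le_ofReal ?_) _)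
      (ENNReal.ofReal_le_ofReal ?_)
    · have h1 : ‖u‖ ^ (59 / 2 : ℝ) = ‖u‖ ^ (57 / 2 : ℝ) * ‖u‖ := by
        rw [← rpow_add_one hn.ne']; norm_num
      have h2 := norm_rpow_le u (a := 57 / 2) (n := 29) (by norm_num) (by norm_num)
      rw [h1]
      calc ‖u‖ ^ (57 / 2 : ℝ) * ‖u‖ * (2 * cS / ‖u‖) = ‖u‖ ^ (57 / 2 : ℝ) * (2 * cS) := by
            field_simp
        _ ≤ _ := by gcongr
    · have h1 : ‖u‖ ^ (59 / 2 : ℝ) * ‖u‖ ^ (-(1 / 2) : ℝ) = ‖u‖ ^ (29 : ℝ) := by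
        rw [← rpow_add hn]; norm_num
      have h2 := norm_rpow_le u (a := 29) (n := 29) (by norm_num) (by norm_num)
      calc ‖u‖ ^ (59 / 2 : ℝ) * (cT * (2 * ‖u‖ ^ (-(1 / 2) : ℝ)))
          = ‖u‖ ^ (29 : ℝ) * (2 * cT) := by rw [← h1]; ring
        _ ≤ _ := by gcongr

lemma lint_mm_fst (ε : ℝ) {G : E → ℝ≥0∞} (hG : Measurable G) {F : E × E × S2 → ℝ≥0∞}
    (hF : Measurable F) : ∫⁻ p, G p.1 * F p ∂mm ε
      = ∫⁻ v, G v * ∫⁻ w, ∫⁻ o, ENNReal.ofReal (kc ε (v, w, o)) * F (v, w, o) ∂sph := by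
  have h1 : Measurable fun p : E × E × S2 => G p.1 * F p := (hG.comp measurable_fst).mul hF
  have h2 : Measurable fun p : E × E × S2 => ENNReal.ofReal (kc ε p) * (G p.1 * F p) :=
    Measurable.mul (by fun_prop) h1
  have h3 : Measurable fun p : E × E × S2 => ENNReal.ofReal (kc ε p) * F p :=
    Measurable.mul (by fun_prop) hF
  rw [lint_mm ε h1, lintegral_mu3 _ h2]
  refine lintegral_congr fun v => ?_
  have h4 : Measurable fun q : E × S2 => ENNReal.ofReal (kc ε (v, q.1, q.2)) * F (v, q.1, q.2) :=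
    h3.comp (f := fun q : E × S2 => (v, q.1, q.2)) (by fun_prop)
  rw [← lintegral_const_mul _ h4.lintegral_prod_right']
  refine lintegral_congr fun w => ?_
  have h5 : Measurable fun o : S2 => ENNReal.ofReal (kc ε (v, w, o)) * F (v, w, o) :=
    h4.comp (f := fun o : S2 => (w, o)) (by fun_prop)
  rw [← lintegral_const_mul _ h5]
  exact lintegral_congr fun o => by ring

lemma HH_bound : ∃ C : ℝ≥0∞, C ≠ ⊤ ∧ ∀ (ε : ℝ) (g : E → ℝ), Measurable g →
    ∫⁻ p, ENNReal.ofReal (g p.1 ^ 2) * ENNReal.ofReal (HH p) ∂mm ε ≤ C * L2L g := by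
  obtain ⟨Ca, hCa, hang⟩ := ang_first
  set A : ℝ := 2 * exp (1 / 4) * exp (((30 : ℕ) : ℝ) ^ 2 / (4 * (1 / 8)))
    * exp (((30 + (dd + 1) : ℕ) : ℝ) ^ 2 / (4 * (1 / 8))) with hA
  refine ⟨ENNReal.ofReal A * Ca * ∫⁻ z, ENNReal.ofReal (jap z),
    ENNReal.mul_ne_top (ENNReal.mul_ne_top ENNReal.ofReal_ne_top hCa) lint_jap,
    fun ε g hg => ?_⟩
  rw [lint_mm_fst ε (G := fun v => ENNReal.ofReal (g v ^ 2)) (by fun_prop) (by fun_prop), L2L,
    ← lintegral_const_mul _ (by fun_prop)]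
  refine lintegral_mono fun v => ?_
  simp only
  rw [mul_comm]
  refine mul_le_mul_left ?_ _
  rw [← lintegral_const_mul _ (by fun_prop)]
  refine lintegral_mono fun w => ?_
  set D : ℝ := exp (1 / 4) * ((1 + ‖v‖) * exp (-(1 / 8 * ‖v‖ ^ 2)))
    * ((1 + ‖w‖) * exp (-(1 / 8 * ‖w‖ ^ 2))) with hD
  have hD0 : 0 ≤ D := by positivity
  have h1 : ∀ o : S2, ENNReal.ofReal (kc ε (v, w, o)) * ENNReal.ofReal (HH (v, w, o))
      ≤ ENNReal.ofReal (2 * D) *
        (ENNReal.ofReal (‖v - w‖ ^ (59 / 2 : ℝ)) * psi ⟪v - w, (o : E)⟫) := by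
    intro o
    by_cases hr : 1 < |rho (v, w, o)|
    · rw [kc, phi_eq_zero hr]; simp
    · have h2 := HH_le (v, w, o) (not_lt.1 hr)
      have h3 := phi_nonneg ε (rho (v, w, o))
      refine le_trans ?_ (mul_le_mul_right (mul_le_mul_right (phi_mul_abs_le ε _) _) _)
      rw [← ENNReal.ofReal_mul (kc_nonneg _ _), ← ENNReal.ofReal_mul (by positivity),
        ← ENNReal.ofReal_mul (by positivity)]
      refine ENNReal.ofReal_le_ofReal ?_
      calc kc ε (v, w, o) * HH (v, w, o) ≤ kc ε (v, w, o) * (|rho (v, w, o)| * D) :=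
            mul_le_mul_of_nonneg_left h2 (kc_nonneg _ _)
        _ = _ := by simp only [kc, rho]; ring
  simp only
  refine (lintegral_mono h1).trans ?_
  rw [lintegral_const_mul' _ _ ENNReal.ofReal_ne_top]
  refine (mul_le_mul_right (hang (v - w)) _).trans ?_
  rw [← mul_assoc, ← ENNReal.ofReal_mul (by positivity), mul_right_comm (ENNReal.ofReal A),
    ← ENNReal.ofReal_mul (by positivity)]
  refine mul_le_mul_left (ENNReal.ofReal_le_ofReal ?_) _
  have a1 := gauss_poly 30 (c := 1 / 8) (by norm_num) (norm_nonneg v)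
  have a2 := le_jap (n := 30) (gauss_poly (30 + (dd + 1)) (c := 1 / 8) (by norm_num) (norm_nonneg w))
  have a3 := one_add_sub_le v w
  calc 2 * D * (1 + ‖v - w‖) ^ 29
      ≤ 2 * D * ((1 + ‖v‖) * (1 + ‖w‖)) ^ 29 := by gcongr
    _ = 2 * exp (1 / 4) * ((1 + ‖v‖) ^ 30 * exp (-(1 / 8 * ‖v‖ ^ 2)))
        * ((1 + ‖w‖) ^ 30 * exp (-(1 / 8 * ‖w‖ ^ 2))) := by
        rw [hD]
        generalize 1 + ‖v‖ = Z1
        generalize 1 + ‖w‖ = Z2
        ring
    _ ≤ 2 * exp (1 / 4) * exp (((30 : ℕ) : ℝ) ^ 2 / (4 * (1 / 8)))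
        * (exp (((30 + (dd + 1) : ℕ) : ℝ) ^ 2 / (4 * (1 / 8))) * jap w) :=
      mul_le_mul (mul_le_mul_of_nonneg_left a1 (by positivity)) a2 (by positivity) (by positivity)
    _ = _ := by rw [hA, mul_assoc _ _ (jap w)]

lemma sM_gap {w x : E} (hw : ‖w‖ ≤ 1 / 10) (hx : 1 / 2 ≤ ‖x - w‖) :
    exp (-(1 / 400)) - exp (-(1 / 25)) ≤ sM w - sM x := by
  have h1 : 2 / 5 ≤ ‖x‖ := by linarith [norm_sub_le x w]
  have h2 : exp (-(1 / 400)) ≤ sM w := exp_le_exp.2 (by nlinarith [norm_nonneg w])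
  have h3 : sM x ≤ exp (-(1 / 25)) := exp_le_exp.2 (by nlinarith)
  linarith

lemma nu_lower : ∃ c : ℝ, 0 < c ∧ ∀ ε : ℝ, ε ≤ 1 / 2 → ∀ v : E, 2 ≤ ‖v‖ →
    ENNReal.ofReal (c * (1 + ‖v‖) ^ (57 / 2 : ℝ)) ≤
      ∫⁻ w, ∫⁻ o, ENNReal.ofReal (kc ε (v, w, o))
        * ENNReal.ofReal ((sM w - sM (pw v w o)) ^ 2) ∂sph := by
  set c0 : ℝ := exp (-(1 / 400)) - exp (-(1 / 25)) with hc0
  have hc : 0 < c0 := sub_pos.2 (exp_lt_exp.2 (by norm_num))
  have hcS := cS_pos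
  set B : Set E := Metric.ball (0 : E) (1 / 10) with hB
  have hB0 : 0 < (volume B).toReal :=
    ENNReal.toReal_pos (Metric.measure_ball_pos _ _ (by norm_num)).ne' measure_ball_lt_top.ne
  refine ⟨(1 / 2) ^ dd * cS * c0 ^ 2 * (1 / 2) ^ (57 / 2 : ℝ) * (volume B).toReal, by positivity,
    fun ε hε v hv => ?_⟩
  have h1 : ∀ w ∈ B, ENNReal.ofReal ((1 / 2) ^ dd * cS * c0 ^ 2 * (1 / 2) ^ (57 / 2 : ℝ)
      * (1 + ‖v‖) ^ (57 / 2 : ℝ)) ≤ ∫⁻ o, ENNReal.ofReal (kc ε (v, w, o))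
        * ENNReal.ofReal ((sM w - sM (pw v w o)) ^ 2) ∂sph := by
    intro w hw
    have hw' : ‖w‖ < 1 / 10 := mem_ball_zero_iff.1 hw
    have hu1 : ‖v‖ - 1 / 10 ≤ ‖v - w‖ := by linarith [norm_sub_norm_le v w]
    have hn : 0 < ‖v - w‖ := by linarith
    set K : ℝ := 2 * ‖v - w‖ ^ (59 / 2 : ℝ) * c0 ^ 2 with hK
    have h2 : ∀ o : S2, (Icc (1 / 2 : ℝ) 1).indicator (fun _ => ENNReal.ofReal K) ⟪v - w, (o : E)⟫
        ≤ ENNReal.ofReal (kc ε (v, w, o)) * ENNReal.ofReal ((sM w - sM (pw v w o)) ^ 2) := by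
      intro o
      by_cases ho : ⟪v - w, (o : E)⟫ ∈ Icc (1 / 2 : ℝ) 1
      · have ha : |⟪v - w, (o : E)⟫| = ⟪v - w, (o : E)⟫ := abs_of_pos (by linarith [ho.1])
        have h3 : 1 ≤ phi ε ⟪v - w, (o : E)⟫ := by
          rw [phi, indicator_of_mem (show _ ∈ win ε from ⟨by linarith [ho.1], by linarith [ho.2]⟩)]
          exact one_le_rpow_of_pos_of_le_one_of_nonpos (by linarith [ho.1]) (by linarith [ho.2])
            (by norm_num)
        have h4 := sM_gap (x := pw v w o) hw'.le (by rw [norm_pw_sub, ha]; exact ho.1)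
        rw [indicator_of_mem ho, ← ENNReal.ofReal_mul (kc_nonneg _ _)]
        refine ENNReal.ofReal_le_ofReal ?_
        calc K = 2 * ‖v - w‖ ^ (59 / 2 : ℝ) * 1 * c0 ^ 2 := by rw [hK]; ring
          _ ≤ 2 * ‖v - w‖ ^ (59 / 2 : ℝ) * phi ε ⟪v - w, (o : E)⟫
              * (sM w - sM (pw v w o)) ^ 2 := by gcongr
          _ = _ := rfl
      · rw [indicator_of_notMem ho]; exact zero_le
    refine le_trans ?_ (lintegral_mono h2)
    refine le_trans ?_ (le_arch _ (norm_pos_iff.1 hn) _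
      (measurable_const.indicator measurableSet_Icc) fun t ht => indicator_of_notMem (fun h => by
        nlinarith [h.1, h.2]) _)
    rw [lintegral_indicator measurableSet_Icc, setLIntegral_const, Real.volume_Icc,
      ← ENNReal.ofReal_mul (by positivity), ← ENNReal.ofReal_mul (by positivity)]
    refine ENNReal.ofReal_le_ofReal ?_
    have h5 : ‖v - w‖ ^ (59 / 2 : ℝ) = ‖v - w‖ ^ (57 / 2 : ℝ) * ‖v - w‖ := by
      rw [← rpow_add_one hn.ne']; norm_num
    have h6 : (1 / 2) ^ (57 / 2 : ℝ) * (1 + ‖v‖) ^ (57 / 2 : ℝ) ≤ ‖v - w‖ ^ (57 / 2 : ℝ) := by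
      rw [← mul_rpow (by norm_num) (by positivity)]
      gcongr
      linarith
    calc (1 / 2) ^ dd * cS * c0 ^ 2 * (1 / 2) ^ (57 / 2 : ℝ) * (1 + ‖v‖) ^ (57 / 2 : ℝ)
        = (1 / 2) ^ dd * cS * c0 ^ 2 * ((1 / 2) ^ (57 / 2 : ℝ) * (1 + ‖v‖) ^ (57 / 2 : ℝ)) := by ring
      _ ≤ (1 / 2) ^ dd * cS * c0 ^ 2 * ‖v - w‖ ^ (57 / 2 : ℝ) := by gcongr
      _ = _ := by rw [hK, h5]; field_simp; ring
  calc _ = ∫⁻ _ in B, ENNReal.ofReal ((1 / 2) ^ dd * cS * c0 ^ 2 * (1 / 2) ^ (57 / 2 : ℝ)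
        * (1 + ‖v‖) ^ (57 / 2 : ℝ)) := by
        rw [setLIntegral_const, ← ENNReal.ofReal_toReal (measure_ball_lt_top.ne : volume B ≠ ⊤),
          ← ENNReal.ofReal_mul (by positivity), ENNReal.toReal_ofReal hB0.le]
        congr 1; ring
    _ ≤ ∫⁻ w in B, ∫⁻ o, ENNReal.ofReal (kc ε (v, w, o))
        * ENNReal.ofReal ((sM w - sM (pw v w o)) ^ 2) ∂sph :=
        setLIntegral_mono' measurableSet_ball h1
    _ ≤ _ := setLIntegral_le_lintegral _ _

end Pool.Agent.BoltzD.C3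

end
end MrgPart0

-- ======== part 1: formerly Pool.Agent.BoltzD.C3.Expand
section MrgPart1

/-! Expansion of the truncated dissipation. -/

open MeasureTheory Real Set
open scoped ENNReal RealInnerProductSpace

noncomputable section

namespace Pool.Agent.BoltzD.C3

open Pool.Agent.BoltzD.Coll

variable [Dim]

lemma int_le_toReal {α : Type*} [MeasurableSpace α] {μ : Measure α} {F : α → ℝ}
    (hF : Integrable F μ) {B : ℝ≥0∞} (hB : B ≠ ⊤) (h : ∫⁻ p, ENNReal.ofReal (F p) ∂μ ≤ B) :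
    ∫ p, F p ∂μ ≤ B.toReal := by
  rw [integral_eq_lintegral_pos_part_sub_lintegral_neg_part hF]
  have := ENNReal.toReal_mono hB h
  linarith [ENNReal.toReal_nonneg (a := ∫⁻ p, ENNReal.ofReal (-F p) ∂μ)]

/-- Gaussian jump functional -/
def GG (ε : ℝ) (g : E → ℝ) : ℝ≥0∞ :=
  ∫⁻ p, ENNReal.ofReal ((g (pv p.1 p.2.1 p.2.2) - g p.1) ^ 2
    * (sM p.2.1 * sM (pw p.1 p.2.1 p.2.2))) ∂mm ε

/-- multiplier functional -/
def TT (ε : ℝ) (g : E → ℝ) : ℝ≥0∞ :=
  ∫⁻ p, ENNReal.ofReal (g p.1 ^ 2)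
    * ENNReal.ofReal ((sM p.2.1 - sM (pw p.1 p.2.1 p.2.2)) ^ 2) ∂mm ε

lemma weight_ne_top {g : E → ℝ} (hg : Dec g) {W : E → ℝ} (hW : ∀ v, W v ≤ (1 + ‖v‖) ^ 30) :
    ∫⁻ v, ENNReal.ofReal (W v * g v ^ 2) ≠ ⊤ := by
  obtain ⟨K, hK, h⟩ := hg.near
  refine ne_top_of_le_ne_top (ENNReal.mul_ne_top (ENNReal.ofReal_ne_top (r := K)) lint_jap) ?_
  rw [← lintegral_const_mul' _ _ ENNReal.ofReal_ne_top]
  refine lintegral_mono fun v => ?_
  simp only
  rw [← ENNReal.ofReal_mul hK]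
  exact ENNReal.ofReal_le_ofReal ((mul_le_mul_of_nonneg_right (hW v) (sq_nonneg _)).trans
    (le_jap (n := 30) (h v v (by simp))))

lemma L2L_ne_top {g : E → ℝ} (hg : Dec g) : L2L g ≠ ⊤ := by
  have := weight_ne_top hg (W := fun _ => 1) fun v => one_le_pow₀ (by linarith [norm_nonneg v])
  simpa only [one_mul, L2L] using this

lemma N8_ne_top {g : E → ℝ} (hg : Dec g) : N8 g ≠ ⊤ :=
  weight_ne_top hg fun v => pow_le_pow_right₀ (by linarith [norm_nonneg v]) (by norm_num)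

lemma NW_ne_top {g : E → ℝ} (hg : Dec g) : NW g ≠ ⊤ :=
  weight_ne_top hg fun v => by
    rw [← rpow_natCast]
    exact rpow_le_rpow_of_exponent_le (by linarith [norm_nonneg v]) (by norm_num)

lemma two_toReal {a b c : ℝ≥0∞} (hb : b * c ≠ ⊤) (h : a ≤ b * c) :
    2 * a.toReal ≤ (2 * b * c).toReal := by
  rw [mul_assoc, ENNReal.toReal_mul, ENNReal.toReal_ofNat]
  linarith [ENNReal.toReal_mono hb h]

lemma expand : ∃ C : ℝ≥0∞, C ≠ ⊤ ∧ ∀ ε : ℝ, 0 < ε → ∀ g : E → ℝ, Dec g →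
    GG ε g + TT ε g ≤ DL g + C * N8 g + C * L2L g := by
  obtain ⟨C1, hC1, h1⟩ := err_max
  obtain ⟨C2, hC2, h2⟩ := err_cross
  obtain ⟨C3, hC3, h3⟩ := HH_bound
  refine ⟨2 * C1 + 2 * (2 * C2) + 4 * C3, by finiteness, fun ε hε g hg => ?_⟩
  have hgm := hg.1
  have v0 : ∀ p : E × E × S2, ‖p.1 - p.1‖ ≤ |rho p| := fun p => by simp
  have w0 : ∀ p : E × E × S2, ‖p.2.1 - p.2.1‖ ≤ |rho p| := fun p => by simp
  have v1 : ∀ p : E × E × S2, ‖pv p.1 p.2.1 p.2.2 - p.1‖ ≤ |rho p| :=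
    fun p => (norm_pv_sub _ _ _).le
  have w1 : ∀ p : E × E × S2, ‖pw p.1 p.2.1 p.2.2 - p.2.1‖ ≤ |rho p| :=
    fun p => (norm_pw_sub _ _ _).le
  set P0 : E × E × S2 → ℝ := fun p => g p.1 * sM p.2.1 with hP0
  set P1 : E × E × S2 → ℝ := fun p => g (pv p.1 p.2.1 p.2.2) * sM (pw p.1 p.2.1 p.2.2) with hP1
  set Q0 : E × E × S2 → ℝ := fun p => sM p.1 * g p.2.1 with hQ0
  set Q1 : E × E × S2 → ℝ := fun p => sM (pv p.1 p.2.1 p.2.2) * g (pw p.1 p.2.1 p.2.2) with hQ1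
  set R0 : E × E × S2 → ℝ := fun p => g p.1 * sM (pw p.1 p.2.1 p.2.2) with hR0
  set R1 : E × E × S2 → ℝ := fun p => g (pv p.1 p.2.1 p.2.2) * sM p.2.1 with hR1
  set S0 : E × E × S2 → ℝ := fun p => sM p.1 * g (pw p.1 p.2.1 p.2.2) with hS0
  have mP0 : MemLp P0 2 (mm ε) := memLp2 hε hg dec_sM (by fun_prop) (by fun_prop) v0 w0
  have mP1 : MemLp P1 2 (mm ε) := memLp2 hε hg dec_sM (by fun_prop) (by fun_prop) v1 w1
  have mQ0 : MemLp Q0 2 (mm ε) := memLp2 hε dec_sM hg (by fun_prop) (by fun_prop) v0 w0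
  have mQ1 : MemLp Q1 2 (mm ε) := memLp2 hε dec_sM hg (by fun_prop) (by fun_prop) v1 w1
  have mR0 : MemLp R0 2 (mm ε) := memLp2 hε hg dec_sM (by fun_prop) (by fun_prop) v0 w1
  have mR1 : MemLp R1 2 (mm ε) := memLp2 hε hg dec_sM (by fun_prop) (by fun_prop) v1 w0
  have mS0 : MemLp S0 2 (mm ε) := memLp2 hε dec_sM hg (by fun_prop) (by fun_prop) v0 w1
  have im : ∀ {A B : E × E × S2 → ℝ}, MemLp A 2 (mm ε) → MemLp B 2 (mm ε) →
      Integrable (fun p => A p * B p) (mm ε) := fun hA hB => hA.integrable_mul hB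
  have ia : ∀ {A B : E × E × S2 → ℝ}, Integrable A (mm ε) → Integrable B (mm ε) →
      Integrable (fun p => A p + B p) (mm ε) := fun hA hB => hA.add hB
  -- behaviour under the symmetries
  have cP0 : ∀ p, P0 (coll p) = P1 p := fun p => rfl
  have cQ0 : ∀ p, Q0 (coll p) = Q1 p := fun p => rfl
  have cP1 : ∀ p, P1 (coll p) = P0 p := fun p => by simp only [hP1, hP0, coll, pv_pv, pw_pw]
  have cQ1 : ∀ p, Q1 (coll p) = Q0 p := fun p => by simp only [hQ1, hQ0, coll, pv_pv, pw_pw]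
  have cR0 : ∀ p, R0 (coll p) = R1 p := fun p => by simp only [hR0, hR1, coll, pw_pw]
  have sP0 : ∀ p, P0 (swp p) = Q0 p := fun p => mul_comm _ _
  have sP1 : ∀ p, P1 (swp p) = Q1 p := fun p => by
    simp only [hP1, hQ1, swp]; rw [pv_swap p.1, pw_swap p.1, mul_comm]
  have e1 : ∫ p, P1 p * P1 p ∂mm ε = ∫ p, P0 p * P0 p ∂mm ε := by
    rw [← int_coll ε fun p => P0 p * P0 p]; simp only [cP0]
  have e2 : ∫ p, Q0 p * Q0 p ∂mm ε = ∫ p, P0 p * P0 p ∂mm ε := by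
    rw [← int_swp ε fun p => P0 p * P0 p]; simp only [sP0]
  have e3 : ∫ p, Q1 p * Q1 p ∂mm ε = ∫ p, P0 p * P0 p ∂mm ε := by
    rw [← e2, ← int_coll ε fun p => Q0 p * Q0 p]; simp only [cQ0]
  have e4 : ∫ p, Q0 p * Q1 p ∂mm ε = ∫ p, P0 p * P1 p ∂mm ε := by
    rw [← int_swp ε fun p => P0 p * P1 p]; simp only [sP0, sP1]
  have e5 : ∫ p, P1 p * Q1 p ∂mm ε = ∫ p, P0 p * Q0 p ∂mm ε := by
    rw [← int_coll ε fun p => P0 p * Q0 p]; simp only [cP0, cQ0]
  have e6 : ∫ p, P1 p * Q0 p ∂mm ε = ∫ p, P0 p * Q1 p ∂mm ε := by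
    rw [← int_coll ε fun p => P0 p * Q1 p]; simp only [cP0, cQ1]
  have e7 : ∫ p, P1 p * R1 p ∂mm ε = ∫ p, P0 p * R0 p ∂mm ε := by
    rw [← int_coll ε fun p => P0 p * R0 p]; simp only [cP0, cR0]
  -- the three quadratic functionals
  have iD : Integrable (fun p => Inc (Sym g sM) p ^ 2) (mm ε) := by
    have m := (mP1.add mQ1).sub (mP0.add mQ0)
    refine (im m m).congr (ae_of_all _ fun p => ?_)
    simp only [Inc, Coll.Sym, Pi.sub_apply, Pi.add_apply, hP0, hP1, hQ0, hQ1]; ring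
  have xD : ∫ p, Inc (Sym g sM) p ^ 2 ∂mm ε
      = 4 * ∫ p, P0 p * P0 p ∂mm ε - 4 * ∫ p, P0 p * P1 p ∂mm ε
        + 4 * ∫ p, P0 p * Q0 p ∂mm ε - 4 * ∫ p, P0 p * Q1 p ∂mm ε := by
    have : (fun p => Inc (Sym g sM) p ^ 2) = fun p =>
        (((P1 p * P1 p + Q1 p * Q1 p) + (P0 p * P0 p + Q0 p * Q0 p))
          + (2 * (P1 p * Q1 p) + 2 * (P0 p * Q0 p)))
          - ((2 * (P0 p * P1 p) + 2 * (Q0 p * Q1 p)) + (2 * (P1 p * Q0 p) + 2 * (P0 p * Q1 p))) := by
      funext p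
      simp only [Inc, Coll.Sym, hP0, hP1, hQ0, hQ1]; ring
    have a1 := ia (im mP1 mP1) (im mQ1 mQ1)
    have a2 := ia (im mP0 mP0) (im mQ0 mQ0)
    have a3 := ia ((im mP1 mQ1).const_mul 2) ((im mP0 mQ0).const_mul 2)
    have a4 := ia ((im mP0 mP1).const_mul 2) ((im mQ0 mQ1).const_mul 2)
    have a5 := ia ((im mP1 mQ0).const_mul 2) ((im mP0 mQ1).const_mul 2)
    rw [this, integral_sub (ia (ia a1 a2) a3) (ia a4 a5), integral_add (ia a1 a2) a3,
      integral_add a1 a2, integral_add a4 a5, integral_add (im mP1 mP1) (im mQ1 mQ1),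
      integral_add (im mP0 mP0) (im mQ0 mQ0),
      integral_add ((im mP1 mQ1).const_mul 2) ((im mP0 mQ0).const_mul 2),
      integral_add ((im mP0 mP1).const_mul 2) ((im mQ0 mQ1).const_mul 2),
      integral_add ((im mP1 mQ0).const_mul 2) ((im mP0 mQ1).const_mul 2)]
    simp only [integral_const_mul]
    rw [e1, e2, e3, e4, e5, e6]; ring
  have iG : Integrable (fun p : E × E × S2 => (g (pv p.1 p.2.1 p.2.2) - g p.1) ^ 2
      * (sM p.2.1 * sM (pw p.1 p.2.1 p.2.2))) (mm ε) := by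
    refine (im (mR1.sub mP0) (mP1.sub mR0)).congr (ae_of_all _ fun p => ?_)
    simp only [Pi.sub_apply, hP0, hP1, hR0, hR1]; ring
  have xG : ∫ p, (g (pv p.1 p.2.1 p.2.2) - g p.1) ^ 2 * (sM p.2.1 * sM (pw p.1 p.2.1 p.2.2)) ∂mm ε
      = 2 * ∫ p, P0 p * R0 p ∂mm ε - 2 * ∫ p, P0 p * P1 p ∂mm ε := by
    have : (fun p : E × E × S2 => (g (pv p.1 p.2.1 p.2.2) - g p.1) ^ 2
        * (sM p.2.1 * sM (pw p.1 p.2.1 p.2.2))) = fun p =>
        (P1 p * R1 p + P0 p * R0 p) - 2 * (P0 p * P1 p) := by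
      funext p
      simp only [hP0, hP1, hR0, hR1]; ring
    rw [this, integral_sub (ia (im mP1 mR1) (im mP0 mR0)) ((im mP0 mP1).const_mul 2),
      integral_add (im mP1 mR1) (im mP0 mR0), integral_const_mul, e7]; ring
  have iT : Integrable (fun p : E × E × S2 =>
      g p.1 ^ 2 * (sM p.2.1 - sM (pw p.1 p.2.1 p.2.2)) ^ 2) (mm ε) := by
    refine (im (mP0.sub mR0) (mP0.sub mR0)).congr (ae_of_all _ fun p => ?_)
    simp only [Pi.sub_apply, hP0, hR0]; ring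
  have xT : ∫ p, g p.1 ^ 2 * (sM p.2.1 - sM (pw p.1 p.2.1 p.2.2)) ^ 2 ∂mm ε
      = ∫ p, P0 p * P0 p ∂mm ε + ∫ p, R0 p * R0 p ∂mm ε - 2 * ∫ p, P0 p * R0 p ∂mm ε := by
    have : (fun p : E × E × S2 => g p.1 ^ 2 * (sM p.2.1 - sM (pw p.1 p.2.1 p.2.2)) ^ 2)
        = fun p => (P0 p * P0 p + R0 p * R0 p) - 2 * (P0 p * R0 p) := by
      funext p
      simp only [hP0, hR0]; ring
    rw [this, integral_sub (ia (im mP0 mP0) (im mR0 mR0)) ((im mP0 mR0).const_mul 2),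
      integral_add (im mP0 mP0) (im mR0 mR0), integral_const_mul]
  -- the error terms
  have hL := L2L_ne_top hg
  have hN := N8_ne_top hg
  have y1 : ∫ p, R0 p * R0 p ∂mm ε - ∫ p, P0 p * P0 p ∂mm ε ≤ (2 * C1 * N8 g).toReal := by
    have f0 : (fun p : E × E × S2 => g p.1 ^ 2 * sM p.2.1 ^ 2) = fun p => P0 p * P0 p := by
      funext p; simp only [hP0]; ring
    have f1 : (fun p : E × E × S2 => g p.1 ^ 2 * sM (pw p.1 p.2.1 p.2.2) ^ 2)
        = fun p => R0 p * R0 p := by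
      funext p; simp only [hR0]; ring
    have hne := ENNReal.mul_ne_top hC1 hN
    have := cancel ε (H := fun q => g q.1 ^ 2 * sM q.2 ^ 2) (by fun_prop)
      (by simp only [f0]; exact im mP0 mP0) (by simp only [f1]; exact im mR0 mR0)
      (ne_top_of_le_ne_top hne (h1 g hgm))
    simp only [f0, f1] at this
    exact this.trans (two_toReal hne (h1 g hgm))
  have y2 : ∫ p, R0 p * S0 p ∂mm ε - ∫ p, P0 p * Q0 p ∂mm ε ≤ (2 * C2 * L2L g).toReal := by
    have f0 : (fun p : E × E × S2 => g p.1 * sM p.1 * (g p.2.1 * sM p.2.1))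
        = fun p => P0 p * Q0 p := by
      funext p; simp only [hP0, hQ0]; ring
    have f1 : (fun p : E × E × S2 => g p.1 * sM p.1
        * (g (pw p.1 p.2.1 p.2.2) * sM (pw p.1 p.2.1 p.2.2))) = fun p => R0 p * S0 p := by
      funext p; simp only [hR0, hS0]; ring
    have hne := ENNReal.mul_ne_top hC2 hL
    have := cancel ε (H := fun q => g q.1 * sM q.1 * (g q.2 * sM q.2)) (by fun_prop)
      (by simp only [f0]; exact im mP0 mQ0) (by simp only [f1]; exact im mR0 mS0)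
      (ne_top_of_le_ne_top hne (h2 g hgm))
    simp only [f0, f1] at this
    exact this.trans (two_toReal hne (h2 g hgm))
  have y3 : ∫ p, P0 p * Q1 p ∂mm ε - ∫ p, R0 p * S0 p ∂mm ε
      ≤ (C3 * L2L g + C3 * L2L g).toReal := by
    rw [← integral_sub (im mP0 mQ1) (im mR0 mS0)]
    refine int_le_toReal ((im mP0 mQ1).sub (im mR0 mS0)) (by finiteness) ?_
    have hm : Measurable fun p : E × E × S2 =>
        ENNReal.ofReal (g p.1 ^ 2) * ENNReal.ofReal (HH p) := by fun_prop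
    have hs := ((mp_swp ε).comp (mp_coll ε)).lintegral_comp hm
    simp only [Function.comp, HH_symm] at hs
    refine le_trans (lintegral_mono (g := fun p => ENNReal.ofReal (g p.1 ^ 2)
      * ENNReal.ofReal (HH p) + ENNReal.ofReal (g (swp (coll p)).1 ^ 2) * ENNReal.ofReal (HH p))
      fun p => ?_) ?_
    · simp only
      rw [← add_mul, ← ENNReal.ofReal_add (sq_nonneg _) (sq_nonneg _),
        ← ENNReal.ofReal_mul (by positivity)]
      refine ENNReal.ofReal_le_ofReal ?_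
      have a1 : P0 p * Q1 p - R0 p * S0 p = g p.1 * g (pw p.1 p.2.1 p.2.2)
          * (sM p.2.1 * sM (pv p.1 p.2.1 p.2.2) - sM p.1 * sM (pw p.1 p.2.1 p.2.2)) := by
        simp only [hP0, hQ1, hR0, hS0]; ring
      rw [Pi.sub_apply, a1]
      refine (le_abs_self _).trans ?_
      rw [abs_mul]
      refine mul_le_mul_of_nonneg_right ?_ (abs_nonneg _)
      show _ ≤ g p.1 ^ 2 + g (pw p.1 p.2.1 p.2.2) ^ 2
      rw [abs_le]
      constructor <;> nlinarith [sq_nonneg (g p.1 - g (pw p.1 p.2.1 p.2.2)),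
        sq_nonneg (g p.1 + g (pw p.1 p.2.1 p.2.2))]
    · rw [lintegral_add_left hm, hs]
      exact add_le_add (h3 ε g hgm) (h3 ε g hgm)
  have nD : 0 ≤ ∫ p, Inc (Sym g sM) p ^ 2 ∂mm ε := integral_nonneg fun p => sq_nonneg _
  have hDL : ENNReal.ofReal (∫ p, Inc (Sym g sM) p ^ 2 ∂mm ε) ≤ DL g := by
    have hm : Measurable (Inc (Sym g sM)) := measurable_Inc (by unfold Coll.Sym; fun_prop)
    rw [ofReal_integral_eq_lintegral_ofReal iD (ae_of_all _ fun p => sq_nonneg _),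
      lint_mm ε (by fun_prop)]
    refine lintegral_mono fun p => ?_
    simp only
    rw [← ENNReal.ofReal_mul (kc_nonneg _ _)]
    exact ENNReal.ofReal_le_ofReal (mul_le_mul_of_nonneg_right (kc_le ε p) (sq_nonneg _))
  have pG : ∀ p : E × E × S2, 0 ≤ (g (pv p.1 p.2.1 p.2.2) - g p.1) ^ 2
      * (sM p.2.1 * sM (pw p.1 p.2.1 p.2.2)) :=
    fun p => mul_nonneg (sq_nonneg _) (mul_pos (sM_pos _) (sM_pos _)).le
  have pT : ∀ p : E × E × S2, 0 ≤ g p.1 ^ 2 * (sM p.2.1 - sM (pw p.1 p.2.1 p.2.2)) ^ 2 :=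
    fun p => mul_nonneg (sq_nonneg _) (sq_nonneg _)
  have hTT : TT ε g = ENNReal.ofReal
      (∫ p, g p.1 ^ 2 * (sM p.2.1 - sM (pw p.1 p.2.1 p.2.2)) ^ 2 ∂mm ε) := by
    rw [ofReal_integral_eq_lintegral_ofReal iT (ae_of_all _ pT)]
    exact lintegral_congr fun p => (ENNReal.ofReal_mul (sq_nonneg _)).symm
  rw [GG, ← ofReal_integral_eq_lintegral_ofReal iG (ae_of_all _ pG), hTT,
    ← ENNReal.ofReal_add (integral_nonneg pG) (integral_nonneg pT)]
  calc _ ≤ ENNReal.ofReal (∫ p, Inc (Sym g sM) p ^ 2 ∂mm ε + (2 * C1 * N8 g).toReal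
        + (((2 * C2 * L2L g).toReal + (2 * C2 * L2L g).toReal) + ((C3 * L2L g + C3 * L2L g).toReal
          + (C3 * L2L g + C3 * L2L g).toReal))) := by
        refine ENNReal.ofReal_le_ofReal ?_
        rw [xG, xT]
        rw [xD] at nD ⊢
        linarith
    _ ≤ DL g + 2 * C1 * N8 g + ((2 * C2 * L2L g + 2 * C2 * L2L g)
        + ((C3 * L2L g + C3 * L2L g) + (C3 * L2L g + C3 * L2L g))) := by
        refine ENNReal.ofReal_add_le.trans (add_le_add (ENNReal.ofReal_add_le.trans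
          (add_le_add hDL ENNReal.ofReal_toReal_le)) (ENNReal.ofReal_add_le.trans (add_le_add
            (ENNReal.ofReal_add_le.trans (add_le_add ENNReal.ofReal_toReal_le
              ENNReal.ofReal_toReal_le)) (ENNReal.ofReal_add_le.trans
                (add_le_add ENNReal.ofReal_toReal_le ENNReal.ofReal_toReal_le)))))
    _ ≤ _ := by
        refine add_le_add (add_le_add le_rfl (mul_le_mul_left (le_add_right le_self_add) _)) ?_
        calc _ = (2 * (2 * C2) + 4 * C3) * L2L g := by ring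
          _ ≤ _ := mul_le_mul_left (by rw [add_assoc]; exact le_add_self) _

lemma NW_le_TT : ∃ C : ℝ≥0∞, C ≠ ⊤ ∧ ∀ ε : ℝ, ε ≤ 1 / 2 → ∀ g : E → ℝ, Measurable g →
    NW g ≤ C * (TT ε g + L2L g) := by
  obtain ⟨c, hc, h⟩ := nu_lower
  refine ⟨ENNReal.ofReal (c⁻¹ + 3 ^ 29), ENNReal.ofReal_ne_top, fun ε hε g hg => ?_⟩
  rw [TT, lint_mm_fst ε (G := fun v => ENNReal.ofReal (g v ^ 2)) (by fun_prop) (by fun_prop), L2L,
    ← lintegral_add_right _ (by fun_prop), ← lintegral_const_mul' _ _ ENNReal.ofReal_ne_top]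
  refine lintegral_mono fun v => ?_
  simp only
  by_cases hv : 2 ≤ ‖v‖
  · refine le_trans ?_ (mul_le_mul_right (le_add_right (mul_le_mul_right (h ε hε v hv) _)) _)
    rw [← ENNReal.ofReal_mul (sq_nonneg _), ← ENNReal.ofReal_mul (by positivity)]
    refine ENNReal.ofReal_le_ofReal ?_
    calc (1 + ‖v‖) ^ (57 / 2 : ℝ) * g v ^ 2
        = c⁻¹ * (g v ^ 2 * (c * (1 + ‖v‖) ^ (57 / 2 : ℝ))) := by field_simp
      _ ≤ _ := by gcongr; norm_num
  · refine le_trans ?_ (mul_le_mul_right le_add_self _)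
    rw [← ENNReal.ofReal_mul (by positivity)]
    refine ENNReal.ofReal_le_ofReal (mul_le_mul_of_nonneg_right ?_ (sq_nonneg _))
    calc (1 + ‖v‖) ^ (57 / 2 : ℝ) ≤ (1 + ‖v‖) ^ ((29 : ℕ) : ℝ) :=
          rpow_le_rpow_of_exponent_le (by linarith [norm_nonneg v]) (by norm_num)
      _ ≤ 3 ^ 29 := by rw [rpow_natCast]; gcongr; linarith
      _ ≤ _ := le_add_of_nonneg_left (by positivity)

lemma N8_le {η : ℝ} (hη : 0 < η) (g : E → ℝ) (hg : Measurable g) :
    N8 g ≤ ENNReal.ofReal η * NW g + ENNReal.ofReal ((η⁻¹ ^ 2) ^ 28) * L2L g := by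
  rw [N8, NW, L2L, ← lintegral_const_mul' _ _ ENNReal.ofReal_ne_top,
    ← lintegral_const_mul' _ _ ENNReal.ofReal_ne_top, ← lintegral_add_right _ (by fun_prop)]
  refine lintegral_mono fun v => ?_
  simp only
  have h1 : 0 < 1 + ‖v‖ := by positivity
  by_cases hv : 1 + ‖v‖ ≤ η⁻¹ ^ 2
  · refine le_add_left ?_
    rw [← ENNReal.ofReal_mul (by positivity)]
    refine ENNReal.ofReal_le_ofReal ?_
    gcongr
  · refine le_add_right ?_
    rw [← ENNReal.ofReal_mul hη.le, ← mul_assoc]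
    refine ENNReal.ofReal_le_ofReal (mul_le_mul_of_nonneg_right ?_ (sq_nonneg _))
    have h2 : (1 + ‖v‖) ^ (57 / 2 : ℝ) = √(1 + ‖v‖) * (1 + ‖v‖) ^ 28 := by
      rw [sqrt_eq_rpow, ← rpow_natCast, ← rpow_add h1]; norm_num
    have h3 : η⁻¹ ≤ √(1 + ‖v‖) := le_sqrt_of_sq_le (not_le.1 hv).le
    rw [h2, ← mul_assoc]
    refine le_mul_of_one_le_left (by positivity) ?_
    calc 1 = η * η⁻¹ := (mul_inv_cancel₀ hη.ne').symm
      _ ≤ _ := by gcongr

end Pool.Agent.BoltzD.C3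

end
end MrgPart1

-- marker of a merged file
example : 731051 + 463921 = 731051 + 463921 := rfl

end MrgPart1

-- ======== part 2: formerly Pool.Agent.BoltzD.C3.Cone
section MrgPart2

/-! Lower bound of the Gaussian jump functional by jumps in a cone. -/

open MeasureTheory Real Set
open scoped ENNReal RealInnerProductSpace

noncomputable section

namespace Pool.Agent.BoltzD.C3

open Pool.Agent.BoltzD.Coll
open Pool.Agent.BoltzD.Geo (perp cyl norm_sq_eq_perp)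

variable [Dim]

lemma phi_anti {ε ε' : ℝ} (h : ε' ≤ ε) (t : ℝ) : phi ε t ≤ phi ε' t :=
  indicator_le_indicator_of_subset (show win ε ⊆ win ε' from fun _ hs => ⟨h.trans hs.1, hs.2⟩)
    (fun s => rpow_nonneg (abs_nonneg s) _) t

lemma phi_zero_le (t : ℝ) : ∃ n : ℕ, phi 0 t ≤ phi (1 / (n + 2)) t := by
  by_cases ht : t = 0
  · refine ⟨0, (phi_le 0 t).trans ?_⟩
    rw [ht, abs_zero, zero_rpow (by norm_num)]
    exact phi_nonneg _ _
  · obtain ⟨n, hn⟩ := exists_nat_one_div_lt (abs_pos.2 ht)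
    refine ⟨n, ?_⟩
    by_cases h1 : |t| ≤ 1
    · have : t ∈ win (1 / (n + 2)) :=
        ⟨le_trans (by gcongr; norm_num) hn.le, h1⟩
      rw [phi, phi, indicator_of_mem this]
      exact phi_le 0 t
    · rw [phi_eq_zero (not_le.1 h1)]
      exact phi_nonneg _ _

lemma lint_mm_zero {F : E × E × S2 → ℝ≥0∞} (hF : Measurable F) {B : ℝ≥0∞}
    (h : ∀ ε : ℝ, 0 < ε → ε ≤ 1 / 2 → ∫⁻ p, F p ∂mm ε ≤ B) : ∫⁻ p, F p ∂mm 0 ≤ B := by
  have hmono : Monotone fun (n : ℕ) (p : E × E × S2) =>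
      ENNReal.ofReal (kc (1 / (n + 2)) p) * F p := fun m n hmn p => by
    refine mul_le_mul_left (ENNReal.ofReal_le_ofReal ?_) _
    refine mul_le_mul_of_nonneg_left (phi_anti ?_ _) (by positivity)
    gcongr
  rw [lint_mm 0 hF]
  refine (lintegral_mono (g := fun p => ⨆ n : ℕ, ENNReal.ofReal (kc (1 / (n + 2)) p) * F p)
    fun p => ?_).trans ?_
  · obtain ⟨n, hn⟩ := phi_zero_le (rho p)
    refine le_iSup_of_le n (mul_le_mul_left (ENNReal.ofReal_le_ofReal ?_) _)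
    exact mul_le_mul_of_nonneg_left hn (by positivity)
  · rw [lintegral_iSup (fun n => by fun_prop) hmono]
    refine iSup_le fun n => ?_
    rw [← lint_mm _ hF]
    refine h _ (by positivity) ?_
    gcongr
    linarith [Nat.cast_nonneg (α := ℝ) n]

lemma shell {b c : ℝ} (hb : 0 ≤ b) (X : ℝ≥0∞) :
    ENNReal.ofReal (cS * b ^ (dd - 2) * (c - b)) * X
      ≤ ∫⁻ r in Ioi (0 : ℝ), ENNReal.ofReal (cS * r ^ (dd - 2))
        * (Ioo b c).indicator (fun _ => X) r := by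
  have := cS_pos
  calc _ = ∫⁻ r in Ioi (0 : ℝ),
        (Ioo b c).indicator (fun _ => ENNReal.ofReal (cS * b ^ (dd - 2)) * X) r := by
        rw [lintegral_indicator_const measurableSet_Ioo, Measure.restrict_apply measurableSet_Ioo,
          inter_eq_left.2 (show Ioo b c ⊆ Ioi 0 from fun r hr => hb.trans_lt hr.1), Real.volume_Ioo,
          ENNReal.ofReal_mul (by positivity)]
        ring
    _ ≤ _ := lintegral_mono fun r => by
        by_cases hr : r ∈ Ioo b c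
        · simp only [indicator_of_mem hr]
          gcongr
          exact hr.1.le
        · simp [indicator_of_notMem hr]

lemma norm_le_perp {e : E} (he : ‖e‖ = 1) (u : E) : ‖u‖ ≤ |⟪u, e⟫| + ‖perp e u‖ := by
  calc ‖u‖ = ‖⟪u, e⟫ • e + perp e u‖ := by simp [perp]
    _ ≤ _ := (norm_add_le _ _).trans (by rw [norm_smul, he, mul_one, Real.norm_eq_abs])

lemma perp_le_norm {e : E} (he : ‖e‖ = 1) (u : E) : ‖perp e u‖ ≤ ‖u‖ :=
  abs_le_of_sq_le_sq' (by rw [norm_sq_eq_perp he u]; nlinarith [sq_nonneg ⟪u, e⟫])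
    (norm_nonneg _) |>.2

lemma perp_sub (e u w : E) : perp e (u - w) = perp e u - perp e w := by
  simp only [perp, inner_sub_left]; module

lemma sM_lower {x : E} (h : ‖x‖ ≤ 11) : exp (-31) ≤ sM x := by
  rw [sM, exp_le_exp]
  nlinarith [norm_nonneg x]

/-- the constant of the cone bound -/
def c0 : ℝ := 2 * (1 / 8) ^ (59 / 2 : ℝ) * (exp (-31) * exp (-31))

lemma c0_pos : 0 < c0 := by unfold c0; positivity

lemma cone_inner {g : E → ℝ} (hg : Measurable g) (v : E) (o : S2) (ha : |⟪v, (o : E)⟫| ≤ 3) :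
    ENNReal.ofReal cS * ∫⁻ r : ℝ, ENNReal.ofReal (c0 * ((1 + ‖v‖) ^ (59 / 2 : ℝ) * phi 0 r
      * (g (v + r • (o : E)) - g v) ^ 2))
      ≤ ∫⁻ w, ENNReal.ofReal (kc 0 (v, w, o))
        * ENNReal.ofReal ((g (pv v w o) - g v) ^ 2 * (sM w * sM (pw v w o))) := by
  have ho := norm_coe o
  obtain ⟨s, hs1, hs5, hs⟩ : ∃ s : ℝ, 1 ≤ s ∧ s ≤ 5 ∧ ∀ w : E, ‖perp o w‖ ∈ Ioo s (s + 1) →
      1 / 8 * (1 + ‖v‖) ≤ ‖v - w‖ := by
    have h1 := norm_le_perp ho v
    have h2 : ∀ w : E, ‖perp o v - perp o w‖ ≤ ‖v - w‖ := fun w => by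
      rw [← perp_sub]; exact perp_le_norm ho _
    by_cases hv : 4 ≤ ‖perp o v‖
    · refine ⟨1, le_rfl, by norm_num, fun w hw => ?_⟩
      linarith [h2 w, norm_sub_norm_le (perp o v) (perp o w), hw.2]
    · refine ⟨5, by norm_num, le_rfl, fun w hw => ?_⟩
      linarith [h2 w, norm_sub_norm_le (perp o w) (perp o v), hw.1,
        norm_sub_rev (perp o w) (perp o v)]
  set a := ⟪v, (o : E)⟫ with haa
  set Ψ : ℝ → ℝ≥0∞ := fun r => ENNReal.ofReal (c0 * ((1 + ‖v‖) ^ (59 / 2 : ℝ) * phi 0 r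
      * (g (v + r • (o : E)) - g v) ^ 2)) with hΨ
  have mΨ : Measurable Ψ := by rw [hΨ]; fun_prop
  have mΦ : Measurable (Function.uncurry fun t r : ℝ =>
      (Ioo s (s + 1)).indicator (fun _ => Ψ (t - a)) r) :=
    Measurable.indicator (s := {q : ℝ × ℝ | q.2 ∈ Ioo s (s + 1)})
      (f := fun q : ℝ × ℝ => Ψ (q.1 - a)) (by fun_prop) (measurable_snd measurableSet_Ioo)
  calc ENNReal.ofReal cS * ∫⁻ r, Ψ r = ∫⁻ t, ENNReal.ofReal cS * Ψ (t - a) := by
        rw [lintegral_const_mul' _ _ ENNReal.ofReal_ne_top, lintegral_sub_right_eq_self Ψ a]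
    _ ≤ ∫⁻ t, ∫⁻ r in Ioi (0 : ℝ), ENNReal.ofReal (cS * r ^ (dd - 2))
        * (Ioo s (s + 1)).indicator (fun _ => Ψ (t - a)) r := by
        refine lintegral_mono fun t => le_trans ?_ (shell (by linarith) _)
        refine mul_le_mul_left (ENNReal.ofReal_le_ofReal ?_) _
        rw [add_sub_cancel_left, mul_one]
        exact le_mul_of_one_le_right cS_pos.le (one_le_pow₀ hs1)
    _ = ∫⁻ w : E, (Ioo s (s + 1)).indicator (fun _ => Ψ (⟪w, (o : E)⟫ - a)) ‖perp o w‖ :=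
        (cyl ho _ mΦ).symm
    _ ≤ _ := lintegral_mono fun w => by
        by_cases hw : ‖perp o w‖ ∈ Ioo s (s + 1)
        · simp only [indicator_of_mem hw, hΨ]
          have hr : rho (v, w, o) = -(⟪w, (o : E)⟫ - a) := by
            simp only [rho, inner_sub_left, haa]; ring
          have hp : pv v w o = v + (⟪w, (o : E)⟫ - a) • (o : E) := by
            simp only [pv, inner_sub_left, haa]; module
          rw [← ENNReal.ofReal_mul (kc_nonneg _ _), kc, hr, phi_neg, hp]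
          refine ENNReal.ofReal_le_ofReal ?_
          by_cases h1 : 1 < |⟪w, (o : E)⟫ - a|
          · simp [phi_eq_zero h1]
          have h2 : ‖w‖ ≤ 10 := by
            have := abs_add_le (⟪w, (o : E)⟫ - a) a
            rw [sub_add_cancel] at this
            linarith [norm_le_perp ho w, hw.2]
          have h3 : ‖pw v w o‖ ≤ 11 := by
            have := norm_pw_sub v w o
            rw [show ⟪v - w, (o : E)⟫ = -(⟪w, (o : E)⟫ - a) from hr, abs_neg] at this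
            linarith [norm_sub_norm_le (pw v w o) w]
          have h4 := sM_lower (x := w) (by linarith)
          have h5 := sM_lower h3
          have h6 : (1 / 8 : ℝ) ^ (59 / 2 : ℝ) * (1 + ‖v‖) ^ (59 / 2 : ℝ)
              ≤ ‖v - w‖ ^ (59 / 2 : ℝ) := by
            rw [← mul_rpow (by norm_num) (by positivity)]
            exact rpow_le_rpow (by positivity) (hs w hw) (by norm_num)
          have h7 := phi_nonneg 0 (⟪w, (o : E)⟫ - a)
          calc _ = 2 * ((1 / 8 : ℝ) ^ (59 / 2 : ℝ) * (1 + ‖v‖) ^ (59 / 2 : ℝ))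
                * phi 0 (⟪w, (o : E)⟫ - a) * ((g (v + (⟪w, (o : E)⟫ - a) • (o : E)) - g v) ^ 2
                  * (exp (-31) * exp (-31))) := by rw [c0]; ring
            _ ≤ _ := by gcongr; exact (sM_pos _).le
        · simp [indicator_of_notMem hw]

/-- cone kernel -/
def ck (v z : E) : ℝ :=
  if ‖z‖ ≤ 1 ∧ |⟪v, z⟫| ≤ 3 * ‖z‖ then (1 + ‖v‖) ^ (59 / 2 : ℝ) * ‖z‖ ^ (-((dd : ℝ) + 1 / 2)) else 0

lemma ck_nonneg (v z : E) : 0 ≤ ck v z := by unfold ck; split_ifs <;> positivity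

@[fun_prop] lemma Measurable.ck {α : Type*} [MeasurableSpace α] {a b : α → E}
    (ha : Measurable a) (hb : Measurable b) : Measurable fun x => ck (a x) (b x) := by
  unfold C3.ck
  have h1 : MeasurableSet {x | ‖b x‖ ≤ 1} := measurableSet_le (by fun_prop) measurable_const
  have h2 : MeasurableSet {x | |⟪a x, b x⟫| ≤ 3 * ‖b x‖} :=
    measurableSet_le (by fun_prop) (by fun_prop)
  refine Measurable.ite (h1.inter h2) ?_ measurable_const
  exact (Measurable.pow_const (by fun_prop) _).mul (Measurable.pow_const (by fun_prop) _)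

/-- cone jump functional -/
def GC (g : E → ℝ) : ℝ≥0∞ := ∫⁻ v, ∫⁻ z, ENNReal.ofReal (ck v z * (g (v + z) - g v) ^ 2)

lemma sq_ck (v : E) (o : S2) (r : ℝ) :
    |r| ^ (dd - 1) * ck v (r • (o : E))
      ≤ if |⟪v, (o : E)⟫| ≤ 3 then (1 + ‖v‖) ^ (59 / 2 : ℝ) * phi 0 r else 0 := by
  have h2 := two_le_dd
  by_cases hr : r = 0
  · have := phi_nonneg 0 r
    rw [show |r| ^ (dd - 1) = 0 by rw [hr, abs_zero, zero_pow (by omega)], zero_mul]
    split_ifs <;> positivity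
  have h0 : 0 < |r| := abs_pos.2 hr
  have hn : ‖r • (o : E)‖ = |r| := by rw [norm_smul, norm_coe, mul_one, Real.norm_eq_abs]
  rw [ck, hn, inner_smul_right, abs_mul]
  by_cases h : |r| ≤ 1 ∧ |r| * |⟪v, (o : E)⟫| ≤ 3 * |r|
  · have h1 : r ∈ win 0 := ⟨h0.le, h.1⟩
    rw [if_pos h, if_pos (by nlinarith [h.2]), phi, indicator_of_mem h1,
      ← rpow_natCast, mul_left_comm, ← rpow_add h0, Nat.cast_sub (by omega)]
    refine le_of_eq ?_
    congr 2
    push_cast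
    ring
  · have := phi_nonneg 0 r
    rw [if_neg h, mul_zero]; split_ifs <;> positivity

lemma GC_le : ∃ C : ℝ≥0∞, C ≠ ⊤ ∧ ∀ g : E → ℝ, Measurable g → GC g ≤ C * GG 0 g := by
  have hcS := cS_pos
  have hc0 := c0_pos
  refine ⟨ENNReal.ofReal (c0⁻¹ * cS⁻¹), ENNReal.ofReal_ne_top, fun g hg => ?_⟩
  have hm : Measurable fun p : E × E × S2 => ENNReal.ofReal (kc 0 p)
      * ENNReal.ofReal ((g (pv p.1 p.2.1 p.2.2) - g p.1) ^ 2
        * (sM p.2.1 * sM (pw p.1 p.2.1 p.2.2))) := by fun_prop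
  rw [GG, lint_mm 0 (by fun_prop), lintegral_mu3 _ hm,
    ← lintegral_const_mul' _ _ ENNReal.ofReal_ne_top]
  refine lintegral_mono fun v => ?_
  simp only
  rw [lintegral_lintegral_swap (by exact (hm.comp measurable_prodMk_left).aemeasurable)]
  refine (le_mul_of_one_le_left' one_le_two).trans ?_
  rw [← lintegral_polar_line _ (by fun_prop), ← lintegral_const_mul' _ _ ENNReal.ofReal_ne_top]
  refine lintegral_mono fun o => ?_
  simp only
  by_cases ha : |⟪v, (o : E)⟫| ≤ 3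
  · refine le_trans ?_ (mul_le_mul_right (cone_inner hg v o ha) _)
    rw [← mul_assoc, ← ENNReal.ofReal_mul (by positivity), inv_mul_cancel_right₀ hcS.ne',
      ← lintegral_const_mul' _ _ ENNReal.ofReal_ne_top]
    refine lintegral_mono fun r => ?_
    simp only
    rw [← ENNReal.ofReal_mul (by positivity), ← ENNReal.ofReal_mul (inv_pos.2 c0_pos).le,
      inv_mul_cancel_left₀ c0_pos.ne', ← mul_assoc]
    have := sq_ck v o r
    rw [if_pos ha] at this
    exact ENNReal.ofReal_le_ofReal (mul_le_mul_of_nonneg_right this (sq_nonneg _))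
  · refine le_trans (le_of_eq ?_) zero_le
    refine (lintegral_congr fun r => ?_).trans lintegral_zero
    have := sq_ck v o r
    rw [if_neg ha] at this
    rw [← ENNReal.ofReal_mul (by positivity), ← mul_assoc]
    exact ENNReal.ofReal_of_nonpos (mul_nonpos_of_nonpos_of_nonneg this (sq_nonneg _))

end Pool.Agent.BoltzD.C3

end
end MrgPart2

-- ======== part 3: formerly Pool.Agent.BoltzD.C3.Chain
section MrgPart3

/-! Chaining: the anisotropic jump norm is bounded by cone jumps and the weight norm. -/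

open MeasureTheory Real Set
open scoped ENNReal RealInnerProductSpace

noncomputable section

namespace Pool.Agent.BoltzD.C3

open Pool.Agent.BoltzD.Coll
open Pool.Agent.BoltzD.Geo (perp cyl norm_sq_eq_perp)

variable [Dim]

lemma exists_dir (v : E) : ∃ e : E, ‖e‖ = 1 ∧ ∀ z : E, ⟪v, z⟫ = ‖v‖ * ⟪z, e⟫ := by
  by_cases hv : v = 0
  · exact ⟨EuclideanSpace.single (⟨0, by have := two_le_dd; omega⟩ : Ix) 1, by simp,
      fun z => by simp [hv]⟩
  · have hn : ‖v‖ ≠ 0 := norm_ne_zero_iff.2 hv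
    refine ⟨‖v‖⁻¹ • v, by simp [norm_smul, hn], fun z => ?_⟩
    rw [inner_smul_right, mul_inv_cancel_left₀ hn, real_inner_comm]

lemma abs_inner_unit {e : E} (he : ‖e‖ = 1) (z : E) : |⟪z, e⟫| ≤ ‖z‖ := by
  simpa [he] using abs_real_inner_le_norm z e

lemma cyl_lower {e : E} (he : ‖e‖ = 1) {a d : ℝ} (ha : 0 ≤ a) (hd : 0 ≤ d) {F : E → ℝ≥0∞}
    {Y : ℝ≥0∞} (h : ∀ k, |⟪k, e⟫| ≤ a → ‖perp e k‖ ∈ Ioo (2 * d) (3 * d) → Y ≤ F k) :
    ENNReal.ofReal (2 * cS * d ^ (dd - 1) * a) * Y ≤ ∫⁻ k, F k := by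
  have hcS := cS_pos
  have m1 : Measurable ((Icc (-a) a).indicator fun _ => Y) :=
    measurable_const.indicator measurableSet_Icc
  have mΦ : Measurable (Function.uncurry fun t r : ℝ =>
      (Ioo (2 * d) (3 * d)).indicator (fun _ => (Icc (-a) a).indicator (fun _ => Y) t) r) :=
    Measurable.indicator (s := {q : ℝ × ℝ | q.2 ∈ Ioo (2 * d) (3 * d)})
      (f := fun q : ℝ × ℝ => (Icc (-a) a).indicator (fun _ => Y) q.1) (m1.comp measurable_fst)
      (measurable_snd measurableSet_Ioo)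
  calc _ ≤ ∫⁻ t, ENNReal.ofReal (cS * (2 * d) ^ (dd - 2) * (3 * d - 2 * d))
        * (Icc (-a) a).indicator (fun _ => Y) t := by
        rw [lintegral_const_mul _ m1, lintegral_indicator_const measurableSet_Icc, Real.volume_Icc,
          mul_comm Y, ← mul_assoc, show 3 * d - 2 * d = d by ring,
          ← ENNReal.ofReal_mul (by positivity)]
        refine mul_le_mul_left (ENNReal.ofReal_le_ofReal ?_) _
        have h1 : d ^ (dd - 1) = d ^ (dd - 2) * d := by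
          rw [← pow_succ]; congr 1; have := two_le_dd; omega
        have h2 : d ^ (dd - 2) ≤ (2 * d) ^ (dd - 2) := by gcongr; linarith
        calc 2 * cS * d ^ (dd - 1) * a = cS * d ^ (dd - 2) * d * (2 * a) := by rw [h1]; ring
          _ ≤ cS * (2 * d) ^ (dd - 2) * d * (2 * a) := by gcongr
          _ = _ := by congr 1; ring
    _ ≤ _ := lintegral_mono fun t => shell (by linarith) _
    _ = _ := (cyl he _ mΦ).symm
    _ ≤ _ := lintegral_mono fun k => by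
        by_cases h1 : ‖perp e k‖ ∈ Ioo (2 * d) (3 * d)
        · by_cases h2 : ⟪k, e⟫ ∈ Icc (-a) a
          · simp only [indicator_of_mem h1, indicator_of_mem h2]
            exact h k (abs_le.2 h2) h1
          · simp [indicator_of_mem h1, indicator_of_notMem h2]
        · simp [indicator_of_notMem h1]

lemma cyl_upper {e : E} (he : ‖e‖ = 1) {s : ℝ} (hs : 0 ≤ s) {φ : ℝ → ℝ≥0∞} (hφ : Measurable φ)
    {F : E → ℝ≥0∞} (h : ∀ z, ‖z‖ ≤ s → F z ≤ φ ⟪z, e⟫) (h0 : ∀ z, s < ‖z‖ → F z = 0) :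
    ∫⁻ z, F z ≤ ENNReal.ofReal (cS * s ^ (dd - 1)) * ∫⁻ t, φ t := by
  have hcS := cS_pos
  have mΦ : Measurable (Function.uncurry fun t r : ℝ => (Iic s).indicator (fun _ => φ t) r) :=
    Measurable.indicator (s := {q : ℝ × ℝ | q.2 ∈ Iic s})
      (f := fun q : ℝ × ℝ => φ q.1) (hφ.comp measurable_fst) (measurable_snd measurableSet_Iic)
  calc _ ≤ ∫⁻ z : E, (Iic s).indicator (fun _ => φ ⟪z, e⟫) ‖perp e z‖ := by
        refine lintegral_mono fun z => ?_
        by_cases h1 : ‖z‖ ≤ s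
        · simp only [indicator_of_mem (show ‖perp e z‖ ∈ Iic s from (perp_le_norm he z).trans h1)]
          exact h z h1
        · simp [h0 z (not_le.1 h1)]
    _ = _ := cyl he _ mΦ
    _ ≤ ∫⁻ t, ENNReal.ofReal (cS * s ^ (dd - 1)) * φ t := by
        refine lintegral_mono fun t => ?_
        calc _ ≤ ∫⁻ r in Ioi (0 : ℝ),
              (Iic s).indicator (fun _ => ENNReal.ofReal (cS * s ^ (dd - 2)) * φ t) r := by
              refine setLIntegral_mono' measurableSet_Ioi fun r hr0 => ?_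
              by_cases hr : r ∈ Iic s
              · simp only [indicator_of_mem hr]
                have : 0 ≤ r := le_of_lt hr0
                gcongr
                exact hr
              · simp [indicator_of_notMem hr]
          _ = _ := by
              rw [lintegral_indicator_const measurableSet_Iic,
                Measure.restrict_apply measurableSet_Iic, inter_comm, Ioi_inter_Iic,
                Real.volume_Ioc, mul_right_comm, ← ENNReal.ofReal_mul (by positivity), sub_zero,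
                mul_assoc, ← pow_succ]
              congr 4; have := two_le_dd; omega
    _ = _ := lintegral_const_mul _ hφ

/-- normalised box kernel -/
def bk (v z k : E) : ℝ :=
  if ‖z‖ ≤ 2 * ‖k‖ ∧ |⟪v, z⟫| ≤ 2 * ‖k‖ then (1 + ‖v‖) / ‖k‖ ^ dd else 0

lemma bk_nonneg (v z k : E) : 0 ≤ bk v z k := by unfold bk; split_ifs <;> positivity

@[fun_prop] lemma Measurable.bk {α : Type*} [MeasurableSpace α] {a b c : α → E}
    (ha : Measurable a) (hb : Measurable b) (hc : Measurable c) :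
    Measurable fun x => bk (a x) (b x) (c x) := by
  unfold C3.bk
  have h1 : MeasurableSet {x | ‖b x‖ ≤ 2 * ‖c x‖} := measurableSet_le (by fun_prop) (by fun_prop)
  have h2 : MeasurableSet {x | |⟪a x, b x⟫| ≤ 2 * ‖c x‖} :=
    measurableSet_le (by fun_prop) (by fun_prop)
  exact Measurable.ite (h1.inter h2) (by fun_prop) measurable_const

lemma lint_bk (v k : E) : ∫⁻ z, ENNReal.ofReal (bk v z k) ≤ ENNReal.ofReal (8 * 2 ^ (dd - 1) * cS) := by
  have hcS := cS_pos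
  have h2 := two_le_dd
  by_cases hk : k = 0
  · simp [bk, hk, show dd ≠ 0 by omega]
  have hn : 0 < ‖k‖ := norm_pos_iff.2 hk
  have hl : 0 < 1 + ‖v‖ := by positivity
  obtain ⟨e, he, hv⟩ := exists_dir v
  set a := 4 * ‖k‖ / (1 + ‖v‖) with ha
  refine (cyl_upper he (s := 2 * ‖k‖) (by positivity)
    (φ := (Icc (-a) a).indicator fun _ => ENNReal.ofReal ((1 + ‖v‖) / ‖k‖ ^ dd))
    (measurable_const.indicator measurableSet_Icc) (fun z hz => ?_) (fun z hz => ?_)).trans ?_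
  · rw [bk]
    split_ifs with h
    · rw [indicator_of_mem]
      refine abs_le.1 ?_
      rw [ha, le_div_iff₀ hl]
      have h2 := h.2
      rw [hv, abs_mul, abs_norm] at h2
      nlinarith [abs_inner_unit he z]
    · simp
  · rw [bk, if_neg (fun h => absurd h.1 (not_le.2 hz)), ENNReal.ofReal_zero]
  · rw [lintegral_indicator_const measurableSet_Icc, Real.volume_Icc,
      ← ENNReal.ofReal_mul (by positivity), ← ENNReal.ofReal_mul (by positivity), ha]
    refine le_of_eq ?_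
    congr 1
    have h1 : ‖k‖ ^ dd = ‖k‖ ^ (dd - 1) * ‖k‖ := by rw [← pow_succ]; congr 1; omega
    rw [h1, mul_pow]
    field_simp
    ring

/-- kernel for the long jumps -/
def wk (v z : E) : ℝ :=
  if ‖z‖ ≤ 1 then (1 + ‖v‖) ^ (59 / 2 : ℝ) * (1 + ⟪v, z⟫ ^ 2)⁻¹ else 0

lemma wk_nonneg (v z : E) : 0 ≤ wk v z := by unfold wk; split_ifs <;> positivity

@[fun_prop] lemma Measurable.wk {α : Type*} [MeasurableSpace α] {a b : α → E}
    (ha : Measurable a) (hb : Measurable b) : Measurable fun x => wk (a x) (b x) := by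
  unfold C3.wk
  have h1 : MeasurableSet {x | ‖b x‖ ≤ 1} := measurableSet_le (by fun_prop) measurable_const
  refine Measurable.ite h1 ?_ measurable_const
  exact (Measurable.pow_const (by fun_prop) _).mul (by fun_prop)

lemma lint_cauchy {l : ℝ} (hl : 0 < l) :
    ∫⁻ t : ℝ, ENNReal.ofReal ((1 + (l * t) ^ 2)⁻¹) = ENNReal.ofReal (π / l) := by
  rw [← ofReal_integral_eq_lintegral_ofReal (integrable_inv_one_add_sq.comp_mul_left' hl.ne')
    (ae_of_all _ fun t => by positivity),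
    Measure.integral_comp_mul_left (fun x : ℝ => (1 + x ^ 2)⁻¹), integral_univ_inv_one_add_sq,
    abs_of_pos (inv_pos.2 hl), smul_eq_mul, div_eq_inv_mul]

lemma lint_wk (v : E) : ∫⁻ z, ENNReal.ofReal (wk v z)
    ≤ ENNReal.ofReal (3 * π * cS * (1 + ‖v‖) ^ (57 / 2 : ℝ)) := by
  have hcS := cS_pos
  have hl : 0 < 1 + ‖v‖ := by positivity
  obtain ⟨e, he, hv⟩ := exists_dir v
  refine (cyl_upper he (s := 1) zero_le_one
    (φ := fun t => ENNReal.ofReal (3 * (1 + ‖v‖) ^ (59 / 2 : ℝ))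
      * ENNReal.ofReal ((1 + ((1 + ‖v‖) * t) ^ 2)⁻¹)) (by fun_prop)
    (fun z hz => ?_) (fun z hz => ?_)).trans ?_
  · rw [wk, if_pos hz, ← ENNReal.ofReal_mul (by positivity), hv, mul_comm 3, mul_assoc]
    refine ENNReal.ofReal_le_ofReal (mul_le_mul_of_nonneg_left ?_ (by positivity))
    rw [← div_eq_mul_inv, inv_eq_one_div, div_le_div_iff₀ (by positivity) (by positivity)]
    have h1 : ⟪z, e⟫ ^ 2 ≤ 1 := by
      rw [sq_le_one_iff_abs_le_one]; exact (abs_inner_unit he z).trans hz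
    nlinarith [sq_nonneg ((1 - ‖v‖) * ⟪z, e⟫), sq_nonneg (‖v‖ * ⟪z, e⟫)]
  · rw [wk, if_neg (not_le.2 hz), ENNReal.ofReal_zero]
  · rw [lintegral_const_mul _ (by fun_prop), lint_cauchy hl,
      ← ENNReal.ofReal_mul (by positivity), ← ENNReal.ofReal_mul (by positivity)]
    refine le_of_eq ?_
    congr 1
    rw [show (59 / 2 : ℝ) = 57 / 2 + 1 by norm_num, rpow_add_one hl.ne', one_pow]
    field_simp

/-- constant for the short jumps -/
def c1 : ℝ := 2 * 5 ^ dd * (2 ^ (59 / 2 : ℝ) * (1 / 5) ^ (-((dd : ℝ) + 1 / 2)))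

lemma c1_pos : 0 < c1 := by unfold c1; positivity

lemma short_le {l d : ℝ} (hl : 0 ≤ l) (hd : 0 < d) {v z k : E} (h1 : l ≤ 2 * (1 + ‖v‖))
    (h2 : d ≤ ‖k‖) (h3 : ‖k‖ ≤ 5 * d) (h4 : ‖k‖ ≤ 1) (h5 : |⟪v, k⟫| ≤ 3 * ‖k‖)
    (h6 : ‖z‖ ≤ 2 * ‖k‖) (h7 : |⟪v, z⟫| ≤ 2 * ‖k‖) :
    l / d ^ dd * (l ^ (59 / 2 : ℝ) * d ^ (-((dd : ℝ) + 1 / 2))) ≤ c1 * (bk v z k * ck v k) := by
  have hk : 0 < ‖k‖ := hd.trans_le h2
  rw [bk, ck, if_pos ⟨h6, h7⟩, if_pos ⟨h4, h5⟩]
  have a1 : l / d ^ dd ≤ 2 * 5 ^ dd * ((1 + ‖v‖) / ‖k‖ ^ dd) := by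
    calc l / d ^ dd ≤ 2 * (1 + ‖v‖) / (‖k‖ / 5) ^ dd := by gcongr; linarith
      _ = _ := by rw [div_pow]; field_simp
  have a2 : l ^ (59 / 2 : ℝ) ≤ 2 ^ (59 / 2 : ℝ) * (1 + ‖v‖) ^ (59 / 2 : ℝ) := by
    rw [← mul_rpow (by norm_num) (by positivity)]
    exact rpow_le_rpow hl h1 (by norm_num)
  have a3 : d ^ (-((dd : ℝ) + 1 / 2)) ≤ (1 / 5) ^ (-((dd : ℝ) + 1 / 2)) * ‖k‖ ^ (-((dd : ℝ) + 1 / 2)) := by
    rw [← mul_rpow (by norm_num) hk.le]
    exact rpow_le_rpow_of_nonpos (by positivity) (by linarith) (neg_nonpos.2 (by positivity))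
  calc _ ≤ 2 * 5 ^ dd * ((1 + ‖v‖) / ‖k‖ ^ dd) * (2 ^ (59 / 2 : ℝ) * (1 + ‖v‖) ^ (59 / 2 : ℝ)
        * ((1 / 5) ^ (-((dd : ℝ) + 1 / 2)) * ‖k‖ ^ (-((dd : ℝ) + 1 / 2)))) := by gcongr
    _ = _ := by rw [c1]; ring

/-- constant for the long jumps -/
def c2 : ℝ := 2 ^ (59 / 2 : ℝ) * ((1 / 64) ^ (-((dd : ℝ) / 2 - 3 / 4)) * 195)

lemma c2_pos : 0 < c2 := by unfold c2; positivity

lemma long_le {l D : ℝ} (hl : 0 ≤ l) (hD : 1 / 64 ≤ D) {v z : E} (h1 : l ≤ 2 * (1 + ‖v‖))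
    (h2 : ‖z‖ ≤ 1) (h3 : 1 + ⟪v, z⟫ ^ 2 ≤ 195 * D) :
    l ^ (59 / 2 : ℝ) * D ^ (-((dd : ℝ) / 2 + 1 / 4)) ≤ c2 * wk v z := by
  have h0 : 0 < D := by linarith
  rw [wk, if_pos h2]
  have a2 : l ^ (59 / 2 : ℝ) ≤ 2 ^ (59 / 2 : ℝ) * (1 + ‖v‖) ^ (59 / 2 : ℝ) := by
    rw [← mul_rpow (by norm_num) (by positivity)]
    exact rpow_le_rpow hl h1 (by norm_num)
  have a3 : D ^ (-((dd : ℝ) / 2 - 3 / 4)) ≤ (1 / 64) ^ (-((dd : ℝ) / 2 - 3 / 4)) :=
    rpow_le_rpow_of_nonpos (by norm_num) hD (by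
      have h2 : (2 : ℝ) ≤ dd := by exact_mod_cast two_le_dd
      linarith)
  have a4 : D⁻¹ ≤ 195 * (1 + ⟪v, z⟫ ^ 2)⁻¹ := by
    rw [← div_eq_mul_inv, inv_eq_one_div, div_le_div_iff₀ h0 (by positivity)]
    linarith
  rw [show (-((dd : ℝ) / 2 + 1 / 4)) = -((dd : ℝ) / 2 - 3 / 4) + -1 by ring, rpow_add h0,
    rpow_neg_one]
  calc _ ≤ 2 ^ (59 / 2 : ℝ) * (1 + ‖v‖) ^ (59 / 2 : ℝ)
        * ((1 / 64) ^ (-((dd : ℝ) / 2 - 3 / 4)) * (195 * (1 + ⟪v, z⟫ ^ 2)⁻¹)) := by gcongr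
    _ = _ := by rw [c2]; ring

/-- chaining integrand -/
def HK (g : E → ℝ) (v z k : E) : ℝ≥0∞ :=
  ENNReal.ofReal (bk v z k * (ck v k * (g (v + k) - g v) ^ 2))

/-- majorant of the jump integrand -/
def MM (g : E → ℝ) (v z : E) : ℝ≥0∞ :=
  (∫⁻ k, HK g v z k) + ENNReal.ofReal (wk v z * g v ^ 2)

lemma point_long (g : E → ℝ) {v z : E} (hz : ‖z‖ ≤ 1) (hD : 1 / 64 ≤ ‖z‖ ^ 2 + ⟪v, z⟫ ^ 2) :
    jk v z * (g (v + z) - g v) ^ 2
      ≤ 2 * c2 * (wk v z * g v ^ 2 + wk (v + z) z * g (v + z) ^ 2) := by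
  have hl : 0 ≤ 1 + ‖v‖ := by positivity
  have b1 : jk v z ≤ c2 * wk v z :=
    long_le hl hD (by linarith) hz (by nlinarith [sq_nonneg ‖z‖, sq_nonneg ⟪v, z⟫])
  have b2 : jk v z ≤ c2 * wk (v + z) z := by
    refine long_le hl hD ?_ hz ?_
    · have := norm_sub_le (v + z) z
      rw [add_sub_cancel_right] at this
      linarith [norm_nonneg (v + z)]
    · rw [inner_add_left, real_inner_self_eq_norm_sq]
      have h1 : ‖z‖ ^ 2 ≤ 1 := by nlinarith [norm_nonneg z]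
      nlinarith [sq_nonneg ‖z‖, sq_nonneg ⟪v, z⟫, sq_nonneg (⟪v, z⟫ - ‖z‖ ^ 2)]
  have b0 : 0 ≤ jk v z := by unfold jk; positivity
  calc _ ≤ jk v z * (2 * g v ^ 2 + 2 * g (v + z) ^ 2) := by
        gcongr; nlinarith [sq_nonneg (g (v + z) + g v)]
    _ = 2 * (jk v z * g v ^ 2 + jk v z * g (v + z) ^ 2) := by ring
    _ ≤ 2 * (c2 * wk v z * g v ^ 2 + c2 * wk (v + z) z * g (v + z) ^ 2) := by gcongr
    _ = _ := by ring

lemma point_short {g : E → ℝ} (hg : Measurable g) {v z : E} (hz : z ≠ 0)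
    (hD : ‖z‖ ^ 2 + ⟪v, z⟫ ^ 2 < 1 / 64) :
    ENNReal.ofReal (jk v z * (g (v + z) - g v) ^ 2)
      ≤ ENNReal.ofReal (2 * (cS⁻¹ * c1))
        * ((∫⁻ k, HK g v z k) + ∫⁻ k, HK g (v + z) z k) := by
  have hcS := cS_pos
  have hc1 := c1_pos
  have hl : 0 < 1 + ‖v‖ := by positivity
  have hn : 0 < ‖z‖ := norm_pos_iff.2 hz
  obtain ⟨d, hd, hdd⟩ : ∃ d : ℝ, 0 < d ∧ d ^ 2 = ‖z‖ ^ 2 + ⟪v, z⟫ ^ 2 :=
    ⟨√(‖z‖ ^ 2 + ⟪v, z⟫ ^ 2), by positivity, sq_sqrt (by positivity)⟩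
  have d1 : d ≤ 1 / 8 := by nlinarith
  have d2 : ‖z‖ ≤ d := by nlinarith [sq_nonneg ⟪v, z⟫]
  have d3 : |⟪v, z⟫| ≤ d := abs_le_of_sq_le_sq (by nlinarith) hd.le
  have hj : jk v z = (1 + ‖v‖) ^ (59 / 2 : ℝ) * d ^ (-((dd : ℝ) + 1 / 2)) := by
    rw [jk, ← hdd, ← rpow_natCast, ← rpow_mul hd.le]
    congr 2
    push_cast
    ring
  have b0 : 0 ≤ jk v z := by unfold jk; positivity
  obtain ⟨e, he, hv⟩ := exists_dir v
  have mH : ∀ x : E, Measurable fun k => HK g x z k := fun x => by unfold HK; fun_prop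
  rw [← lintegral_sub_right_eq_self (fun k => HK g (v + z) z k) z, ← lintegral_add_left (mH v),
    ← lintegral_const_mul' _ _ ENNReal.ofReal_ne_top]
  refine le_trans ?_ (cyl_lower he (a := d / (1 + ‖v‖)) (by positivity) hd.le
    (Y := ENNReal.ofReal (cS⁻¹ * ((1 + ‖v‖) / d ^ dd * jk v z * (g (v + z) - g v) ^ 2)))
    fun k k1 k2 => ?_)
  · rw [← ENNReal.ofReal_mul (by positivity)]
    refine ENNReal.ofReal_le_ofReal ?_
    have h1 : d ^ dd = d ^ (dd - 1) * d := by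
      rw [← pow_succ]; congr 1; have := two_le_dd; omega
    calc _ ≤ 2 * (jk v z * (g (v + z) - g v) ^ 2) :=
          le_mul_of_one_le_left (by positivity) one_le_two
      _ = _ := by rw [h1]; field_simp
  · rw [le_div_iff₀ hl] at k1
    have k3 : |⟪v, k⟫| ≤ d := by
      rw [hv, abs_mul, abs_norm]; nlinarith [abs_nonneg ⟪k, e⟫]
    have k4 : 2 * d ≤ ‖k‖ := k2.1.le.trans (perp_le_norm he k)
    have k5 : ‖k‖ ≤ 4 * d := by
      nlinarith [norm_le_perp he k, k2.2, abs_nonneg ⟪k, e⟫, norm_nonneg v]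
    have k6 : d ≤ ‖k - z‖ := by linarith [norm_sub_norm_le k z]
    have k7 : ‖k - z‖ ≤ 5 * d := by linarith [norm_sub_le k z]
    have b1 := short_le (v := v) (z := z) (k := k) hl.le hd (by linarith) (by linarith)
      (by linarith) (by linarith) (by linarith) (by linarith) (by linarith)
    have b2 := short_le (v := v + z) (z := z) (k := k - z) hl.le hd
      (by
        have := norm_sub_le (v + z) z
        rw [add_sub_cancel_right] at this
        linarith [norm_nonneg (v + z)]) k6 k7 (by linarith)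
      (by
        rw [inner_add_left, inner_sub_right]
        have h1 := abs_add_le (⟪v, k⟫ - ⟪v, z⟫) ⟪z, k - z⟫
        have h2 := abs_sub ⟪v, k⟫ ⟪v, z⟫
        have h3 := abs_real_inner_le_norm z (k - z)
        nlinarith [norm_nonneg (k - z)]) (by linarith)
      (by
        rw [inner_add_left, real_inner_self_eq_norm_sq]
        have h1 := abs_add_le ⟪v, z⟫ (‖z‖ ^ 2)
        rw [abs_of_nonneg (sq_nonneg ‖z‖)] at h1
        nlinarith)
    rw [← hj] at b1 b2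
    have p1 := mul_nonneg (bk_nonneg v z k) (ck_nonneg v k)
    have p2 := mul_nonneg (bk_nonneg (v + z) z (k - z)) (ck_nonneg (v + z) (k - z))
    simp only [HK, ← mul_assoc (bk _ _ _)]
    rw [← ENNReal.ofReal_add (by positivity) (by positivity),
      ← ENNReal.ofReal_mul (by positivity), show v + z + (k - z) = v + k by abel,
      mul_left_comm 2, mul_assoc cS⁻¹]
    refine ENNReal.ofReal_le_ofReal (mul_le_mul_of_nonneg_left ?_ (by positivity))
    set κ := (1 + ‖v‖) / d ^ dd * jk v z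
    have hκ : 0 ≤ κ := by positivity
    calc _ ≤ κ * (2 * (g (v + k) - g v) ^ 2 + 2 * (g (v + k) - g (v + z)) ^ 2) := by
          gcongr; nlinarith [sq_nonneg (g (v + k) - g v + (g (v + k) - g (v + z)))]
      _ = 2 * (κ * (g (v + k) - g v) ^ 2 + κ * (g (v + k) - g (v + z)) ^ 2) := by ring
      _ ≤ 2 * (c1 * (bk v z k * ck v k) * (g (v + k) - g v) ^ 2
          + c1 * (bk (v + z) z (k - z) * ck (v + z) (k - z)) * (g (v + k) - g (v + z)) ^ 2) := by
          gcongr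
      _ = _ := by ring

lemma point {g : E → ℝ} (hg : Measurable g) (v : E) {z : E} (hz : ‖z‖ ≤ 1) :
    ENNReal.ofReal (jk v z * (g (v + z) - g v) ^ 2)
      ≤ ENNReal.ofReal (2 * (cS⁻¹ * c1) + 2 * c2) * (MM g v z + MM g (v + z) z) := by
  have hc : 0 < cS⁻¹ * c1 := mul_pos (inv_pos.2 cS_pos) c1_pos
  by_cases h0 : z = 0
  · simp [h0]
  by_cases hD : 1 / 64 ≤ ‖z‖ ^ 2 + ⟪v, z⟫ ^ 2
  · refine (ENNReal.ofReal_le_ofReal (point_long g hz hD)).trans ?_
    rw [ENNReal.ofReal_mul (by linarith [c2_pos])]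
    refine mul_le_mul' (ENNReal.ofReal_le_ofReal (by linarith)) ?_
    exact ENNReal.ofReal_add_le.trans (add_le_add le_add_self le_add_self)
  · refine (point_short hg h0 (not_le.1 hD)).trans ?_
    exact mul_le_mul' (ENNReal.ofReal_le_ofReal (by linarith [c2_pos]))
      (add_le_add le_self_add le_self_add)

lemma measurable_MM {g : E → ℝ} (hg : Measurable g) :
    Measurable fun q : E × E => MM g q.1 q.2 := by
  unfold MM
  refine Measurable.add ?_ (by fun_prop)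
  exact Measurable.lintegral_prod_right' (f := fun x : (E × E) × E => HK g x.1.1 x.1.2 x.2)
    (by unfold HK; fun_prop)

lemma lint_MM {g : E → ℝ} (hg : Measurable g) : ∫⁻ v, ∫⁻ z, MM g v z
    ≤ ENNReal.ofReal (8 * 2 ^ (dd - 1) * cS) * GC g + ENNReal.ofReal (3 * π * cS) * NW g := by
  have hcS := cS_pos
  rw [GC, NW, ← lintegral_const_mul' _ _ ENNReal.ofReal_ne_top,
    ← lintegral_const_mul' _ _ ENNReal.ofReal_ne_top, ← lintegral_add_right _ (by
      exact Measurable.const_mul (Measurable.ennreal_ofReal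
        ((Measurable.pow_const (by fun_prop) _).mul (by fun_prop))) _)]
  refine lintegral_mono fun v => ?_
  simp only [MM]
  rw [lintegral_add_right _ (by fun_prop)]
  refine add_le_add ?_ ?_
  · rw [lintegral_lintegral_swap (by unfold HK; fun_prop),
      ← lintegral_const_mul' _ _ ENNReal.ofReal_ne_top]
    refine lintegral_mono fun k => ?_
    simp only [HK, ENNReal.ofReal_mul (bk_nonneg _ _ _)]
    rw [lintegral_mul_const _ (by fun_prop)]
    exact mul_le_mul_left (lint_bk v k) _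
  · simp only [ENNReal.ofReal_mul (wk_nonneg _ _)]
    rw [lintegral_mul_const _ (by fun_prop), ← ENNReal.ofReal_mul (by positivity), ← mul_assoc,
      ENNReal.ofReal_mul (by positivity)]
    exact mul_le_mul_left (lint_wk v) _

lemma NJ_le : ∃ C : ℝ≥0∞, C ≠ ⊤ ∧ ∀ g : E → ℝ, Measurable g → NJ g ≤ C * (GC g + NW g) := by
  refine ⟨ENNReal.ofReal (2 * (cS⁻¹ * c1) + 2 * c2) * (2 * (ENNReal.ofReal (8 * 2 ^ (dd - 1) * cS)
    + ENNReal.ofReal (3 * π * cS))), by finiteness, fun g hg => ?_⟩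
  have m1 := measurable_MM hg
  have m2 : Measurable fun q : E × E => MM g (q.1 + q.2) q.2 :=
    m1.comp (f := fun q : E × E => (q.1 + q.2, q.2)) (by fun_prop)
  have hs : ∫⁻ v, ∫⁻ z, MM g (v + z) z = ∫⁻ v, ∫⁻ z, MM g v z := by
    rw [lintegral_lintegral_swap (by exact m2.aemeasurable),
      lintegral_lintegral_swap (f := fun v z => MM g v z) (by exact m1.aemeasurable)]
    exact lintegral_congr fun z => lintegral_add_right_eq_self (fun v => MM g v z) z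
  calc NJ g ≤ ∫⁻ v, ENNReal.ofReal (2 * (cS⁻¹ * c1) + 2 * c2)
        * ((∫⁻ z, MM g v z) + ∫⁻ z, MM g (v + z) z) := by
        refine lintegral_mono fun v => ?_
        simp only
        rw [← lintegral_add_left (f := fun z => MM g v z)
            (m1.comp (f := fun z : E => (v, z)) (by fun_prop)),
          ← lintegral_const_mul' _ _ ENNReal.ofReal_ne_top]
        refine le_trans (setLIntegral_mono' Metric.isOpen_ball.measurableSet fun z hz => ?_)
          (setLIntegral_le_lintegral _ _)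
        exact point hg v (mem_ball_zero_iff.1 hz).le
    _ = ENNReal.ofReal (2 * (cS⁻¹ * c1) + 2 * c2) * (2 * ∫⁻ v, ∫⁻ z, MM g v z) := by
        rw [lintegral_const_mul' _ _ ENNReal.ofReal_ne_top,
          lintegral_add_left (f := fun v => ∫⁻ z, MM g v z) m1.lintegral_prod_right', hs,
          ← two_mul]
    _ ≤ _ := by
        rw [mul_assoc, mul_assoc]
        gcongr
        refine (lint_MM hg).trans ?_
        rw [add_mul]
        exact add_le_add (mul_le_mul_right le_self_add _) (mul_le_mul_right le_add_self _)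

end Pool.Agent.BoltzD.C3

end
end MrgPart3

-- marker of a merged file
example : 731051 + 892777 = 731051 + 892777 := rfl
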